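import Pool.Agent.N719.SP.Loc
import Pool.Agent.TH696.FA.Final2

/-!
# The residue classes
-/

set_option autoImplicit false
open Finset

namespace Pool.Agent.N719.SP
open Pool.Agent.W65.FS Pool.Agent.TH696.FA

/-- the exponent of `3` in `z` -/
def J (n : ℕ) : ℕ := if n % 3 = 1 then 0 else if n % 9 = 2 then 2 else 1

/-- the primes `l` that obstruct -/
def Bad (n l : ℕ) : Prop := (n % 4 = 1 ∧ (l : ℤ) ∣ 3 * n - 2 ∧ ¬ IsSquare (((-3 : ℤ)) : ZMod l)) ∨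
  (n % 4 = 3 ∧ (l : ℤ) ∣ 9 * n - 2 ∧ ¬ IsSquare (((-9 : ℤ)) : ZMod l))

/-- `n - 2` is `9 ^ k` times a number congruent to `1` modulo `3` -/
def RegA (n : ℕ) : Prop := ∃ k j : ℕ, n = 9 ^ k * (3 * j + 1) + 2

/-- `n - 9` is `4 ^ (k + 1)` times a number congruent to `1` modulo `8` -/
def RegB (n : ℕ) : Prop := ∃ k j : ℕ, n = 4 ^ (k + 1) * (8 * j + 1) + 9

lemma not_three {n : ℕ} (hno : Odd n) (h : ¬ RegA n) : ¬ 3 ∣ n := by
  rintro ⟨j, hj⟩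
  apply h
  have : 0 < n := hno.pos
  exact ⟨0, j - 1, by omega⟩

/-- the pattern -/
structure PatE (n w M : ℕ) (u : Fin 4 → ℤ) : Prop where
  e1 : u 1 = u 0
  e3 : (2 : ℤ) ∣ u 3
  pat : u 0 + u 2 + 1 = 0 ∨ u 0 = 2 * u 2 - 1
  four : (4 : ℤ) ∣ u 2 - 1
  cop : IsCoprime (u 2) (M : ℤ)
  three : (3 : ℤ) ^ (w + 1) ∣ u 2 ∨ (¬ RegA n ∧ (3 : ℤ) ^ (J n) ∣ u 2 ∧ ¬ (3 : ℤ) ^ (J n + 1) ∣ u 2)

lemma three_a (n : ℕ) (A B W z : ℤ) (hAB : (A = 3 ∧ B = 4) ∨ (A = 9 ∧ B = -8)) (hn : ¬ 3 ∣ n)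
    (hW : (n % 27 = 2 ∧ W = 3) ∨ (n % 27 ≠ 2 ∧ W = 0)) (hz : (27 : ℤ) ∣ A * z ^ 2 + B * z - (n - 2 - W ^ 2)) :
    (3 : ℤ) ^ (J n) ∣ z ∧ ¬ (3 : ℤ) ^ (J n + 1) ∣ z := by
  obtain ⟨k, r, hr0, hr1, rfl⟩ : ∃ k r : ℤ, 0 ≤ r ∧ r < 27 ∧ z = 27 * k + r :=
    ⟨z / 27, z % 27, Int.emod_nonneg _ (by norm_num), Int.emod_lt_of_pos _ (by norm_num), by
      have := Int.mul_ediv_add_emod z 27; omega⟩
  have h27 : (27 : ℤ) ∣ A * r ^ 2 + B * r - (n - 2 - W ^ 2) := by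
    have e : A * r ^ 2 + B * r - (n - 2 - W ^ 2) = (A * (27 * k + r) ^ 2 + B * (27 * k + r) - (n - 2 - W ^ 2)) -
      27 * (A * (27 * k ^ 2 + 2 * k * r) + B * k) := by ring
    rw [e]
    exact dvd_sub hz (dvd_mul_right _ _)
  have key : (n % 3 = 1 → r % 3 ≠ 0) ∧ (n % 3 = 2 → n % 9 ≠ 2 → r % 3 = 0 ∧ r % 9 ≠ 0) ∧
      (n % 9 = 2 → r % 9 = 0 ∧ r % 27 ≠ 0) := by
    rcases hAB with ⟨rfl, rfl⟩ | ⟨rfl, rfl⟩ <;> rcases hW with ⟨hn2, rfl⟩ | ⟨hn2, rfl⟩ <;>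
      interval_cases r <;> omega
  obtain ⟨k1, k2, k3⟩ := key
  unfold J
  split_ifs with g1 g2
  · have := k1 g1
    norm_num
    omega
  · have := k3 g2
    norm_num
    omega
  · have := k2 (by omega) g2
    norm_num
    omega

lemma three_part (n w : ℕ) (hno : Odd n) (A B : ℤ) (hAB : (A = 3 ∧ B = 4) ∨ (A = 9 ∧ B = -8)) :
    ∃ z W : ℤ, (3 : ℤ) ^ (w + 1) ∣ A * z ^ 2 + B * z + 2 + W ^ 2 - n ∧
      ((3 : ℤ) ^ (w + 1) ∣ z ∨ (¬ RegA n ∧ (3 : ℤ) ^ (J n) ∣ z ∧ ¬ (3 : ℤ) ^ (J n + 1) ∣ z)) := by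
  by_cases hA : RegA n
  · obtain ⟨k, j, hj⟩ := hA
    obtain ⟨W1, hW1, _⟩ := sqrt3 (3 * (j : ℤ) + 1) ⟨(j : ℤ), by ring⟩ (w + 1)
    refine ⟨0, 3 ^ k * W1, ?_, Or.inl (dvd_zero _)⟩
    have e : A * (0 : ℤ) ^ 2 + B * 0 + 2 + (3 ^ k * W1) ^ 2 - n = 9 ^ k * (W1 ^ 2 - (3 * (j : ℤ) + 1)) := by
      rw [hj]
      push_cast
      have e9 : (9 : ℤ) ^ k = 3 ^ k * 3 ^ k := by rw [← mul_pow]; norm_num
      rw [e9]
      ring
    rw [e]; exact hW1.mul_left _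
  · have h3 := not_three hno hA
    obtain ⟨W, hW⟩ : ∃ W : ℤ, (n % 27 = 2 ∧ W = 3) ∨ (n % 27 ≠ 2 ∧ W = 0) := by
      by_cases h : n % 27 = 2
      · exact ⟨3, Or.inl ⟨h, rfl⟩⟩
      · exact ⟨0, Or.inr ⟨h, rfl⟩⟩
    obtain ⟨z, hz⟩ := hens3E A B (n - 2 - W ^ 2) (by rcases hAB with ⟨rfl, rfl⟩ | ⟨rfl, rfl⟩ <;> norm_num)
      (by rcases hAB with ⟨rfl, rfl⟩ | ⟨rfl, rfl⟩ <;> norm_num) (w + 3)
    have h27 : (27 : ℤ) ∣ A * z ^ 2 + B * z - (n - 2 - W ^ 2) := by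
      have e : (27 : ℤ) = 3 ^ 3 := by norm_num
      rw [e]
      exact (pow_dvd_pow 3 (by omega)).trans hz
    refine ⟨z, W, ?_, Or.inr ⟨hA, three_a n A B W z hAB h3 hW h27⟩⟩
    have e : A * z ^ 2 + B * z + 2 + W ^ 2 - n = A * z ^ 2 + B * z - (n - 2 - W ^ 2) := by ring
    rw [e]
    exact (pow_dvd_pow 3 (by omega)).trans hz

/-- the condition at `3` only depends on the residue class -/
lemma three_congr (n w : ℕ) (z z1 : ℤ) (h : (3 : ℤ) ^ (w + 1) ∣ z - z1)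
    (h1 : (3 : ℤ) ^ (w + 1) ∣ z1 ∨ (¬ RegA n ∧ (3 : ℤ) ^ (J n) ∣ z1 ∧ ¬ (3 : ℤ) ^ (J n + 1) ∣ z1)) :
    (3 : ℤ) ^ (w + 1) ∣ z ∨ (¬ RegA n ∧ (3 : ℤ) ^ (J n) ∣ z ∧ ¬ (3 : ℤ) ^ (J n + 1) ∣ z) := by
  have e : z = (z - z1) + z1 := by ring
  have e' : z1 = z - (z - z1) := by ring
  rcases h1 with h1 | ⟨h1, h2, h3⟩
  · left
    rw [e]; exact dvd_add h h1
  · by_cases hw : w + 1 ≤ J n
    · left
      rw [e]
      exact dvd_add h ((pow_dvd_pow 3 hw).trans h2)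
    · right
      refine ⟨h1, ?_, ?_⟩
      · rw [e]
        exact dvd_add ((pow_dvd_pow 3 (by omega)).trans h) h2
      · intro h4
        apply h3
        rw [e']
        exact dvd_sub h4 ((pow_dvd_pow 3 (by omega)).trans h)

theorem localE (n v w M : ℕ) (hn : Odd n) (hM : 0 < M) (hM6 : Nat.Coprime 6 M)
    (hsq : ∀ l : ℕ, l.Prime → l ^ 2 ∣ M → ¬ Bad n l) :
    ∃ u : Fin 4 → ℤ, GoodG n (2 ^ (v + 2) * 3 ^ (w + 1) * M) u ∧ PatE n w M u := by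
  have c6 : IsCoprime (6 : ℤ) (M : ℤ) := by exact_mod_cast Nat.isCoprime_iff_coprime.2 hM6
  have c2 : IsCoprime (2 : ℤ) (M : ℤ) := c6.of_isCoprime_of_dvd_left (by norm_num)
  have c3 : IsCoprime (3 : ℤ) (M : ℤ) := c6.of_isCoprime_of_dvd_left (by norm_num)
  have c9 : IsCoprime (9 : ℤ) (M : ℤ) := by
    have : (9 : ℤ) = 3 ^ 2 := by norm_num
    rw [this]; exact c3.pow_left
  have c4 : IsCoprime (-4 : ℤ) (M : ℤ) := by
    have : (-4 : ℤ) = -(2 ^ 2) := by norm_num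
    rw [this, IsCoprime.neg_left_iff]; exact c2.pow_left
  have c23 : IsCoprime ((2 : ℤ) ^ (v + 3)) ((3 : ℤ) ^ (w + 1)) := IsCoprime.pow ⟨-1, 1, by norm_num⟩
  have c2M : IsCoprime ((2 : ℤ) ^ (v + 3)) (M : ℤ) := c2.pow_left
  have c3M : IsCoprime ((3 : ℤ) ^ (w + 1)) (M : ℤ) := c3.pow_left
  have hD : (2 * ((2 ^ (v + 2) * 3 ^ (w + 1) * M : ℕ) : ℤ)) = 2 ^ (v + 3) * 3 ^ (w + 1) * M := by push_cast; ring
  have h2p : (2 : ℤ) ∣ 2 ^ (v + 3) := dvd_pow_self _ (by omega)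
  have h4p : (4 : ℤ) ∣ 2 ^ (v + 3) := by
    have : (2 : ℤ) ^ (v + 3) = 4 * 2 ^ (v + 1) := by ring
    rw [this]; exact dvd_mul_right _ _
  have cgM : ∀ z z2 : ℤ, (M : ℤ) ∣ z - z2 → IsCoprime z2 (M : ℤ) → IsCoprime z (M : ℤ) := by
    rintro z z2 ⟨k, hk⟩ h
    have e : z = z2 + k * M := by linear_combination hk
    rw [e]
    exact IsCoprime.add_mul_right_left h k
  have hfour : ∀ z r : ℤ, (2 : ℤ) ^ (v + 3) ∣ z - (2 * r + 1) → (2 : ℤ) ∣ r → (4 : ℤ) ∣ z - 1 := by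
    rintro z r h ⟨s, rfl⟩
    have e : z - 1 = (z - (2 * (2 * s) + 1)) + 4 * s := by ring
    rw [e]
    exact dvd_add (h4p.trans h) (dvd_mul_right _ _)
  obtain ⟨h, hh⟩ := id hn
  rcases Nat.even_or_odd h with ⟨h', hh'⟩ | ⟨h', hh'⟩
  · -- n = 4 h' + 1
    have hn4 : n % 4 = 1 := by omega
    obtain ⟨z2, W2, hM2, hz2⟩ := MpartE 3 2 2 n (by norm_num) M hM c3 c2 c2 (by
      intro l hl hlM hd
      by_contra hns
      exact hsq l hl hlM (Or.inl ⟨hn4, hd, hns⟩))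
    obtain ⟨z1, W1, hzW1, h31⟩ := three_part n w hn 3 4 (Or.inl ⟨rfl, rfl⟩)
    obtain ⟨w0, hw0⟩ : ∃ w0 : ℤ, (2 : ℤ) ∣ h' - 2 - w0 ^ 2 := by
      rcases Nat.even_or_odd h' with ⟨r, hr⟩ | ⟨r, hr⟩
      · exact ⟨0, ⟨r - 1, by rw [hr]; push_cast; ring⟩⟩
      · exact ⟨1, ⟨r - 1, by rw [hr]; push_cast; ring⟩⟩
    obtain ⟨r, ⟨c, hr⟩, hr2⟩ := hens2E 3 5 _ (by decide) (by decide) hw0 v
    obtain ⟨z, W, hzW, hz0, hW0, hz1, hzM⟩ := glueE 3 4 2 n _ _ _ c23 c2M c3M (2 * r + 1) (2 * w0) z1 W1 z2 W2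
      ⟨c, by
        rw [hh, hh']
        push_cast
        have : (2 : ℤ) ^ (v + 3) = 4 * 2 ^ (v + 1) := by ring
        rw [this]
        linear_combination 4 * hr⟩
      hzW1
      (by
        have e : 3 * z2 ^ 2 + 4 * z2 + 2 + W2 ^ 2 - (n : ℤ) = 3 * z2 ^ 2 + 2 * 2 * z2 + 2 + W2 ^ 2 - n := by ring
        rw [e]; exact hM2)
    refine ⟨![-z - 1, -z - 1, z, W], ⟨?_, ?_⟩, ⟨rfl, ?_, Or.inl ?_, hfour z r hz0 hr2, cgM z z2 hzM hz2,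
      three_congr n w z z1 hz1 h31⟩⟩
    · rw [Fin.sum_univ_four, hD]
      simp only [Matrix.cons_val_zero, Matrix.cons_val_one, Matrix.cons_val]
      have e : (-z - 1) ^ 2 + (-z - 1) ^ 2 + z ^ 2 + W ^ 2 - (n : ℤ) = 3 * z ^ 2 + 4 * z + 2 + W ^ 2 - n := by ring
      rw [e]; exact hzW
    · intro l hl _
      by_contra hall
      push Not at hall
      have g0 : (l : ℤ) ∣ -z - 1 := hall 0
      have g2 : (l : ℤ) ∣ z := hall 2
      have g : (l : ℤ) ∣ 1 := by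
        have := dvd_add g0 g2
        have e : (-z - 1) + z = -1 := by ring
        rw [e] at this
        exact (dvd_neg.1 this)
      exact (Nat.prime_iff_prime_int.1 hl).not_isUnit (isUnit_of_dvd_one g)
    · show (2 : ℤ) ∣ W
      have e : W = (W - 2 * w0) + 2 * w0 := by ring
      rw [e]; exact dvd_add (h2p.trans hW0) (dvd_mul_right _ _)
    · show -z - 1 + z + 1 = 0
      ring
  · -- n = 4 h' + 3
    have hn4 : n % 4 = 3 := by omega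
    obtain ⟨z2, W2, hM2, hz2⟩ := MpartE 9 (-4) 2 n (by norm_num) M hM c9 c2 c4 (by
      intro l hl hlM hd
      by_contra hns
      exact hsq l hl hlM (Or.inr ⟨hn4, hd, hns⟩))
    obtain ⟨z1, W1, hzW1, h31⟩ := three_part n w hn 9 (-8) (Or.inr ⟨rfl, rfl⟩)
    obtain ⟨w0, hw0⟩ : ∃ w0 : ℤ, (2 : ℤ) ∣ h' - w0 ^ 2 := by
      rcases Nat.even_or_odd h' with ⟨r, hr⟩ | ⟨r, hr⟩
      · exact ⟨0, ⟨r, by rw [hr]; push_cast; ring⟩⟩
      · exact ⟨1, ⟨r, by rw [hr]; push_cast; ring⟩⟩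
    obtain ⟨r, ⟨c, hr⟩, hr2⟩ := hens2E 9 5 _ (by decide) (by decide) hw0 v
    obtain ⟨z, W, hzW, hz0, hW0, hz1, hzM⟩ := glueE 9 (-8) 2 n _ _ _ c23 c2M c3M (2 * r + 1) (2 * w0) z1 W1 z2 W2
      ⟨c, by
        rw [hh, hh']
        push_cast
        have : (2 : ℤ) ^ (v + 3) = 4 * 2 ^ (v + 1) := by ring
        rw [this]
        linear_combination 4 * hr⟩
      hzW1
      (by
        have e : 9 * z2 ^ 2 + (-8) * z2 + 2 + W2 ^ 2 - (n : ℤ) = 9 * z2 ^ 2 + 2 * (-4) * z2 + 2 + W2 ^ 2 - n := by ring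
        rw [e]; exact hM2)
    refine ⟨![2 * z - 1, 2 * z - 1, z, W], ⟨?_, ?_⟩, ⟨rfl, ?_, Or.inr rfl, hfour z r hz0 hr2, cgM z z2 hzM hz2,
      three_congr n w z z1 hz1 h31⟩⟩
    · rw [Fin.sum_univ_four, hD]
      simp only [Matrix.cons_val_zero, Matrix.cons_val_one, Matrix.cons_val]
      have e : (2 * z - 1) ^ 2 + (2 * z - 1) ^ 2 + z ^ 2 + W ^ 2 - (n : ℤ) = 9 * z ^ 2 + (-8) * z + 2 + W ^ 2 - n := by ring
      rw [e]; exact hzW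
    · intro l hl _
      by_contra hall
      push Not at hall
      have g0 : (l : ℤ) ∣ 2 * z - 1 := hall 0
      have g2 : (l : ℤ) ∣ z := hall 2
      have g : (l : ℤ) ∣ 1 := by
        have := dvd_sub (g2.mul_left 2) g0
        have e : 2 * z - (2 * z - 1) = 1 := by ring
        rw [e] at this
        exact this
      exact (Nat.prime_iff_prime_int.1 hl).not_isUnit (isUnit_of_dvd_one g)
    · show (2 : ℤ) ∣ W
      have e : W = (W - 2 * w0) + 2 * w0 := by ring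
      rw [e]; exact dvd_add (h2p.trans hW0) (dvd_mul_right _ _)

theorem localP (n v w M : ℕ) (hR : RegB n) (hM : 0 < M) (hM6 : Nat.Coprime 6 M)
    (hsq : ∀ l : ℕ, l.Prime → l ^ 2 ∣ M → ¬ Bad n l) :
    ∃ u : Fin 4 → ℤ, GoodG n (2 ^ (v + 2) * 3 ^ (w + 1) * M) u ∧ Pat v w u := by
  have c6 : IsCoprime (6 : ℤ) (M : ℤ) := by exact_mod_cast Nat.isCoprime_iff_coprime.2 hM6
  have c2 : IsCoprime (2 : ℤ) (M : ℤ) := c6.of_isCoprime_of_dvd_left (by norm_num)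
  have c3 : IsCoprime (3 : ℤ) (M : ℤ) := c6.of_isCoprime_of_dvd_left (by norm_num)
  have c23 : IsCoprime ((2 : ℤ) ^ (v + 3)) ((3 : ℤ) ^ (w + 1)) := IsCoprime.pow ⟨-1, 1, by norm_num⟩
  have c2M : IsCoprime ((2 : ℤ) ^ (v + 3)) (M : ℤ) := c2.pow_left
  have c3M : IsCoprime ((3 : ℤ) ^ (w + 1)) (M : ℤ) := c3.pow_left
  have hD : (2 * ((2 ^ (v + 2) * 3 ^ (w + 1) * M : ℕ) : ℤ)) = 2 ^ (v + 3) * 3 ^ (w + 1) * M := by push_cast; ring
  have h2p : (2 : ℤ) ∣ 2 ^ (v + 3) := dvd_pow_self _ (by omega)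
  obtain ⟨k, j, hkj⟩ := hR
  have hn4 : n % 4 = 1 := by
    have e : n = 4 * (4 ^ k * (8 * j + 1) + 2) + 1 := by rw [hkj]; ring
    omega
  obtain ⟨z2, W2, hM2, -⟩ := MpartE 3 1 1 n (by norm_num) M hM c3 c2 isCoprime_one_left (by
    intro l hl hlM hd
    by_contra hns
    exact hsq l hl hlM (Or.inl ⟨hn4, hd, hns⟩))
  obtain ⟨w0, ⟨c, hc⟩, _⟩ := sqrt2 (8 * (j : ℤ) + 1) ⟨j, by ring⟩ v
  obtain ⟨z1, hz1'⟩ := lin3 ((n : ℤ) - 1) (w + 1)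
  obtain ⟨z, W, hzW, hz0, hW0, hz1⟩ := glue 3 2 1 n _ _ _ c23 c2M c3M (-2) (2 * (2 ^ k * w0)) z1 0 z2 W2
    ⟨4 ^ (k + 1) * c, by
      rw [hkj]
      push_cast
      have e4 : (2 * ((2 : ℤ) ^ k * w0)) ^ 2 = 4 ^ (k + 1) * w0 ^ 2 := by
        have e9 : (4 : ℤ) ^ k = 2 ^ k * 2 ^ k := by rw [← mul_pow]; norm_num
        rw [show (4 : ℤ) ^ (k + 1) = 4 * 4 ^ k by ring, e9]; ring
      rw [e4]
      linear_combination 4 ^ (k + 1) * hc⟩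
    (by
      have e : 3 * z1 ^ 2 + 2 * z1 + 1 + (0 : ℤ) ^ 2 - n = 3 * z1 ^ 2 + 2 * z1 - (n - 1) := by ring
      rw [e]; exact hz1')
    (by
      have e : 3 * z2 ^ 2 + 2 * z2 + 1 + W2 ^ 2 - (n : ℤ) = 3 * z2 ^ 2 + 2 * 1 * z2 + 1 + W2 ^ 2 - n := by ring
      rw [e]; exact hM2)
  refine ⟨![z, z, z + 1, W], ⟨?_, ?_⟩, rfl, ?_, Or.inr ⟨rfl, ?_⟩⟩
  · rw [Fin.sum_univ_four, hD]
    simp only [Matrix.cons_val_zero, Matrix.cons_val_one, Matrix.cons_val]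
    have e : z ^ 2 + z ^ 2 + (z + 1) ^ 2 + W ^ 2 - (n : ℤ) = 3 * z ^ 2 + 2 * z + 1 + W ^ 2 - n := by ring
    rw [e]; exact hzW
  · intro l hl _
    by_contra hall
    push Not at hall
    have g0 : (l : ℤ) ∣ z := hall 0
    have g2 : (l : ℤ) ∣ z + 1 := hall 2
    have g : (l : ℤ) ∣ 1 := by
      have := dvd_sub g2 g0
      simpa using this
    exact (Nat.prime_iff_prime_int.1 hl).not_isUnit (isUnit_of_dvd_one g)
  · show (2 : ℤ) ∣ W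
    have e : W = (W - 2 * (2 ^ k * w0)) + 2 * (2 ^ k * w0) := by ring
    rw [e]; exact dvd_add (h2p.trans hW0) (dvd_mul_right _ _)
  · show (2 : ℤ) ^ (v + 2) ∣ z + 2
    have e : z + 2 = z - -2 := by ring
    rw [e]
    exact (pow_dvd_pow 2 (by omega)).trans hz0

theorem coprimeE (n v w M : ℕ) (hM : 0 < M) (hM6 : Nat.Coprime 6 M) (u : Fin 4 → ℤ) (hP : PatE n w M u)
    (x y z : ℕ) (hx : ((2 ^ (v + 2) * 3 ^ (w + 1) * M : ℕ) : ℤ) ∣ (x : ℤ) - u 0)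
    (hy : ((2 ^ (v + 2) * 3 ^ (w + 1) * M : ℕ) : ℤ) ∣ (y : ℤ) - u 1)
    (hz : ((2 ^ (v + 2) * 3 ^ (w + 1) * M : ℕ) : ℤ) ∣ (z : ℤ) - u 2)
    (q : ℕ) (hq : q.Prime) (hN : q ∣ 2 ^ x + 2 ^ y + 2 ^ z + 1) (hK : q ∣ 2 * (2 ^ (2 ^ v * 3 ^ w * M) - 1)) :
    q ≠ 2 ∧ ¬ RegA n ∧ orderOf (2 : ZMod q) = 3 ^ (J n + 1) := by
  set D : ℕ := 2 ^ (v + 2) * 3 ^ (w + 1) * M with hD
  have h12 : D = 12 * (2 ^ v * 3 ^ w * M) := by rw [hD]; ring
  have hu1 := hP.e1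
  have hpat := hP.pat
  have hfour := hP.four
  have d12 : (12 : ℤ) ∣ (D : ℤ) := by rw [h12]; push_cast; exact dvd_mul_right _ _
  have d4 : (4 : ℤ) ∣ (D : ℤ) := dvd_trans (by norm_num) d12
  have dK : ((2 ^ v * 3 ^ w * M : ℕ) : ℤ) ∣ (D : ℤ) := by rw [h12]; push_cast; exact dvd_mul_left _ _
  have dM : (M : ℤ) ∣ (D : ℤ) := by rw [hD]; push_cast; exact dvd_mul_left _ _
  have d3 : (3 : ℤ) ^ (w + 1) ∣ (D : ℤ) := by
    rw [hD]; push_cast; exact (dvd_mul_left _ _).mul_right _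
  have x4 := d4.trans hx
  have y4 := d4.trans hy
  have z4 := d4.trans hz
  have hpos : 1 ≤ x ∧ 1 ≤ y ∧ z % 2 = 1 := by
    rcases hpat with h2 | h2
    · refine ⟨?_, ?_, ?_⟩ <;> omega
    · refine ⟨?_, ?_, ?_⟩ <;> omega
  obtain ⟨hx1, hy1, hzodd⟩ := hpos
  have hq2 : q ≠ 2 := by
    rintro rfl
    obtain ⟨x', rfl⟩ := Nat.exists_eq_add_of_le hx1
    obtain ⟨y', rfl⟩ := Nat.exists_eq_add_of_le hy1
    obtain ⟨z', rfl⟩ := Nat.exists_eq_add_of_le (show 1 ≤ z by omega)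
    rw [pow_add, pow_add, pow_add] at hN
    omega
  have hK' : q ∣ 2 ^ (2 ^ v * 3 ^ w * M) - 1 := by
    rcases hq.dvd_mul.1 hK with h | h
    · exact absurd ((Nat.prime_dvd_prime_iff_eq hq Nat.prime_two).1 h) hq2
    · exact h
  have : Fact q.Prime := ⟨hq⟩
  have h1 : (2 : ZMod q) ^ (2 ^ v * 3 ^ w * M) = 1 := by
    have h : ((2 ^ (2 ^ v * 3 ^ w * M) - 1 : ℕ) : ZMod q) = 0 := (ZMod.natCast_eq_zero_iff _ _).2 hK'
    rw [Nat.cast_sub Nat.one_le_two_pow] at h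
    push_cast at h
    linear_combination h
  have h20 : (2 : ZMod q) ≠ 0 := by
    intro h
    have h3 : ((2 : ℕ) : ZMod q) = 0 := by exact_mod_cast h
    rw [ZMod.natCast_eq_zero_iff] at h3
    exact hq2 ((Nat.prime_dvd_prime_iff_eq hq Nat.prime_two).1 h3)
  have h3 : (2 : ZMod q) ^ x + 2 ^ y + 2 ^ z + 1 = 0 := by
    have h : ((2 ^ x + 2 ^ y + 2 ^ z + 1 : ℕ) : ZMod q) = 0 := (ZMod.natCast_eq_zero_iff _ _).2 hN
    push_cast at h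
    exact h
  have hyx : (2 : ZMod q) ^ y = 2 ^ x := by
    apply pow_congr_of_dvd _ h1
    apply dK.trans
    have e : (y : ℤ) - x = (y - u 1) - (x - u 0) := by rw [hu1]; ring
    rw [e]; exact dvd_sub hy hx
  rw [hyx] at h3
  have hcyc : (2 : ZMod q) ^ z * 2 ^ z + 2 ^ z + 1 = 0 := by
    rcases hpat with h2 | h2
    · -- `x + z + 1 = 0`
      have e1 : (2 : ZMod q) ^ (x + z + 1) = 2 ^ 0 := by
        apply pow_congr_of_dvd _ h1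
        apply dK.trans
        have e : ((x + z + 1 : ℕ) : ℤ) - ((0 : ℕ) : ℤ) = (x - u 0) + (z - u 2) + (u 0 + u 2 + 1) := by push_cast; ring
        rw [e, h2, add_zero]
        exact dvd_add hx hz
      rw [pow_add, pow_add, pow_zero, pow_one] at e1
      linear_combination (2 : ZMod q) ^ z * h3 - e1
    · -- `x + 1 = 2 z`
      have e1 : (2 : ZMod q) ^ (x + 1) = 2 ^ (z + z) := by
        apply pow_congr_of_dvd _ h1
        apply dK.trans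
        have e : ((x + 1 : ℕ) : ℤ) - ((z + z : ℕ) : ℤ) = (x - u 0) - 2 * (z - u 2) := by
          rw [h2]; push_cast; ring
        rw [e]
        exact dvd_sub hx (hz.mul_left _)
      rw [pow_add, pow_add, pow_one] at e1
      linear_combination h3 - e1
  have ha3 : (2 : ZMod q) ^ (3 * z) = 1 := by
    have e : (2 : ZMod q) ^ (3 * z) = (2 ^ z) ^ 3 := by rw [← pow_mul, mul_comm]
    rw [e]
    linear_combination ((2 : ZMod q) ^ z - 1) * hcyc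
  have ho1 := orderOf_dvd_of_pow_eq_one h1
  have ho2 := orderOf_dvd_of_pow_eq_one ha3
  have ho3 : ¬ orderOf (2 : ZMod q) ∣ z := by
    intro hoz
    have ha1 : (2 : ZMod q) ^ z = 1 := orderOf_dvd_iff_pow_eq_one.1 hoz
    rw [ha1] at hcyc
    have hm1 : (2 : ZMod q) = -1 := by linear_combination hcyc
    have hzo : Odd z := Nat.odd_iff.2 hzodd
    have h5 : (2 : ZMod q) ^ z = -1 := by
      rw [hm1]; exact hzo.neg_one_pow
    rw [ha1] at h5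
    apply h20
    linear_combination h5
  set o := orderOf (2 : ZMod q) with ho
  -- the order is a power of `3`
  have hzM : Nat.Coprime z M := by
    have h5 : IsCoprime (z : ℤ) (M : ℤ) := by
      obtain ⟨k, hk⟩ := dM.trans hz
      have e : (z : ℤ) = u 2 + k * M := by linear_combination hk
      rw [e]
      exact IsCoprime.add_mul_right_left hP.cop k
    exact Nat.isCoprime_iff_coprime.1 h5
  have hM3 : Nat.Coprime 3 M := Nat.Coprime.coprime_dvd_left (by norm_num) hM6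
  have c3z : Nat.Coprime (3 * z) M := Nat.Coprime.mul_left hM3 hzM
  have coM : Nat.Coprime o M := Nat.Coprime.coprime_dvd_left ho2 c3z
  have co2 : Nat.Coprime o (2 ^ v) := by
    apply Nat.Coprime.coprime_dvd_left ho2
    apply Nat.Coprime.pow_right
    rw [Nat.coprime_comm, Nat.Prime.coprime_iff_not_dvd Nat.prime_two]
    omega
  have how : o ∣ 3 ^ w := by
    have h5 : o ∣ 3 ^ w * (2 ^ v * M) := by
      have e : 3 ^ w * (2 ^ v * M) = 2 ^ v * 3 ^ w * M := by ring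
      rw [e]; exact ho1
    exact Nat.Coprime.dvd_of_dvd_mul_right (Nat.Coprime.mul_right co2 coM) h5
  obtain ⟨i, hiw, hoi⟩ := (Nat.dvd_prime_pow Nat.prime_three).1 how
  have hi0 : 1 ≤ i := by
    by_contra hi
    have hi' : i = 0 := by omega
    rw [hi'] at hoi
    apply ho3
    rw [hoi]
    simp
  obtain ⟨i', rfl⟩ := Nat.exists_eq_add_of_le hi0
  have hz1 : 3 ^ i' ∣ z := by
    rw [hoi, pow_add, pow_one] at ho2
    exact Nat.dvd_of_mul_dvd_mul_left (by norm_num) ho2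
  have hz2 : ¬ 3 ^ (1 + i') ∣ z := by rw [← hoi]; exact ho3
  have hz1Z : (3 : ℤ) ^ i' ∣ (z : ℤ) := by exact_mod_cast hz1
  have hz2Z : ¬ (3 : ℤ) ^ (1 + i') ∣ (z : ℤ) := by
    intro h5
    apply hz2
    exact_mod_cast h5
  have hzu := d3.trans hz
  refine ⟨hq2, ?_⟩
  rcases hP.three with h5 | ⟨h5, h6, h7⟩
  · exfalso
    apply hz2Z
    have e : (z : ℤ) = (z - u 2) + u 2 := by ring
    rw [e]
    exact (pow_dvd_pow 3 (by omega)).trans (dvd_add hzu h5)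
  · refine ⟨h5, ?_⟩
    have hij : i' = J n := by
      rcases lt_trichotomy i' (J n) with h8 | h8 | h8
      · exfalso
        apply hz2Z
        have e : (z : ℤ) = (z - u 2) + u 2 := by ring
        rw [e]
        exact dvd_add ((pow_dvd_pow 3 (by omega)).trans hzu) ((pow_dvd_pow 3 (by omega)).trans h6)
      · exact h8
      · exfalso
        apply h7
        have e : u 2 = z - (z - u 2) := by ring
        rw [e]
        exact dvd_sub ((pow_dvd_pow 3 (by omega)).trans hz1Z) ((pow_dvd_pow 3 (by omega)).trans hzu)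
    rw [hoi, hij, add_comm]

end Pool.Agent.N719.SP
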