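import Pool.Agent.N719.SP.LocU

/-!
# The residue classes of the Aurifeuillian pattern
-/

set_option autoImplicit false
open Finset

namespace Pool.Agent.N719.SP
open Pool.Agent.W65.FS Pool.Agent.TH696.FA

/-- the primes that obstruct -/
def BadU (n l : ℕ) : Prop := (n % 4 = 1 ∧ (l : ℤ) ∣ 9 * n - 8 ∧ ¬ IsSquare (((-9 : ℤ)) : ZMod l)) ∨
  (n % 4 = 3 ∧ (l : ℤ) ∣ 3 * n - 8 ∧ ¬ IsSquare (((-3 : ℤ)) : ZMod l))

/-- the pattern; `t` is the exponent of `T` -/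
structure PatU (n M : ℕ) (u : Fin 4 → ℤ) (t : ℤ) : Prop where
  e2 : u 2 = u 1
  e3 : (2 : ℤ) ∣ u 3
  pat : (n % 4 = 1 ∧ u 0 = 1 + t ∧ u 1 = 2 * t) ∨ (n % 4 = 3 ∧ u 0 = -1 - t ∧ u 1 = t - 1)
  four : (4 : ℤ) ∣ t - 2
  three : ¬ (3 : ℤ) ∣ 2 * t + 1
  mp : ∀ l : ℕ, l.Prime → l ∣ M → (l : ℤ) ∣ 2 * t + 1 → ¬ l ^ 2 ∣ M ∧
    ((n % 4 = 1 ∧ l = 7 ∧ (7 : ℤ) ∣ 9 * n - 8) ∨ (n % 4 = 3 ∧ l = 5 ∧ (5 : ℤ) ∣ 3 * n - 8))

lemma three_part0 (n w : ℕ) : ∃ z W : ℤ, (3 : ℤ) ^ (w + 1) ∣ 9 * z ^ 2 + 2 * z + 1 + W ^ 2 - n ∧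
    ¬ (3 : ℤ) ∣ 2 * z + 1 := by
  obtain ⟨W, hW⟩ : ∃ W : ℤ, (n % 3 = 0 ∧ W = 1) ∨ (n % 3 ≠ 0 ∧ W = 0) := by
    by_cases h : n % 3 = 0
    · exact ⟨1, Or.inl ⟨h, rfl⟩⟩
    · exact ⟨0, Or.inr ⟨h, rfl⟩⟩
  obtain ⟨z, hz⟩ := hens3E (-9) (-2) (W ^ 2 + 1 - n) (by norm_num) (by norm_num) (w + 1)
  have hz' : (3 : ℤ) ^ (w + 1) ∣ 9 * z ^ 2 + 2 * z + 1 + W ^ 2 - n := by
    have e : 9 * z ^ 2 + 2 * z + 1 + W ^ 2 - n = -(-9 * z ^ 2 + -2 * z - (W ^ 2 + 1 - n)) := by ring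
    rw [e]; exact (dvd_neg).2 hz
  refine ⟨z, W, hz', ?_⟩
  have h3 : (3 : ℤ) ∣ 9 * z ^ 2 + 2 * z + 1 + W ^ 2 - n := (dvd_pow_self 3 (by omega)).trans hz'
  rcases hW with ⟨h1, rfl⟩ | ⟨h1, rfl⟩
  · norm_num at h3; omega
  · norm_num at h3; omega

lemma three_part1 (n w : ℕ) : ∃ z W : ℤ, (3 : ℤ) ^ (w + 1) ∣ 3 * z ^ 2 + (-2) * z + 3 + W ^ 2 - n ∧
    ¬ (3 : ℤ) ∣ 2 * z + 1 := by
  obtain ⟨W, hW⟩ : ∃ W : ℤ, (n % 3 = 1 ∧ W = 1) ∨ (n % 3 ≠ 1 ∧ W = 0) := by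
    by_cases h : n % 3 = 1
    · exact ⟨1, Or.inl ⟨h, rfl⟩⟩
    · exact ⟨0, Or.inr ⟨h, rfl⟩⟩
  obtain ⟨z, hz⟩ := hens3E 3 (-2) (n - 3 - W ^ 2) (by norm_num) (by norm_num) (w + 1)
  have hz' : (3 : ℤ) ^ (w + 1) ∣ 3 * z ^ 2 + (-2) * z + 3 + W ^ 2 - n := by
    have e : 3 * z ^ 2 + (-2) * z + 3 + W ^ 2 - n = 3 * z ^ 2 + -2 * z - (n - 3 - W ^ 2) := by ring
    rw [e]; exact hz
  refine ⟨z, W, hz', ?_⟩
  have h3 : (3 : ℤ) ∣ 3 * z ^ 2 + (-2) * z + 3 + W ^ 2 - n := (dvd_pow_self 3 (by omega)).trans hz'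
  rcases hW with ⟨h1, rfl⟩ | ⟨h1, rfl⟩
  · norm_num at h3; omega
  · norm_num at h3; omega

theorem localU (n v w M : ℕ) (hn : Odd n) (hM : 0 < M) (hM6 : Nat.Coprime 6 M)
    (hsq : ∀ l : ℕ, l.Prime → l ^ 2 ∣ M → ¬ BadU n l) :
    ∃ (u : Fin 4 → ℤ) (t : ℤ), GoodG n (2 ^ (v + 2) * 3 ^ (w + 1) * M) u ∧ PatU n M u t := by
  have c6 : IsCoprime (6 : ℤ) (M : ℤ) := by exact_mod_cast Nat.isCoprime_iff_coprime.2 hM6
  have c2 : IsCoprime (2 : ℤ) (M : ℤ) := c6.of_isCoprime_of_dvd_left (by norm_num)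
  have c3 : IsCoprime (3 : ℤ) (M : ℤ) := c6.of_isCoprime_of_dvd_left (by norm_num)
  have c9 : IsCoprime (9 : ℤ) (M : ℤ) := by
    have : (9 : ℤ) = 3 ^ 2 := by norm_num
    rw [this]; exact c3.pow_left
  have c23 : IsCoprime ((2 : ℤ) ^ (v + 3)) ((3 : ℤ) ^ (w + 1)) := IsCoprime.pow ⟨-1, 1, by norm_num⟩
  have c2M : IsCoprime ((2 : ℤ) ^ (v + 3)) (M : ℤ) := c2.pow_left
  have c3M : IsCoprime ((3 : ℤ) ^ (w + 1)) (M : ℤ) := c3.pow_left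
  have hD : (2 * ((2 ^ (v + 2) * 3 ^ (w + 1) * M : ℕ) : ℤ)) = 2 ^ (v + 3) * 3 ^ (w + 1) * M := by push_cast; ring
  have h2p : (2 : ℤ) ∣ 2 ^ (v + 3) := dvd_pow_self _ (by omega)
  have h3p : (3 : ℤ) ∣ 3 ^ (w + 1) := dvd_pow_self _ (by omega)
  have h4p : (4 : ℤ) ∣ 2 ^ (v + 3) := by
    have : (2 : ℤ) ^ (v + 3) = 4 * 2 ^ (v + 1) := by ring
    rw [this]; exact dvd_mul_right _ _
  have hfour : ∀ z s : ℤ, (2 : ℤ) ^ (v + 3) ∣ z - (4 * s + 2) → (4 : ℤ) ∣ z - 2 := by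
    intro z s h
    have e : z - 2 = (z - (4 * s + 2)) + 4 * s := by ring
    rw [e]
    exact dvd_add (h4p.trans h) (dvd_mul_right _ _)
  have hthree : ∀ z z1 : ℤ, (3 : ℤ) ^ (w + 1) ∣ z - z1 → ¬ (3 : ℤ) ∣ 2 * z1 + 1 → ¬ (3 : ℤ) ∣ 2 * z + 1 := by
    intro z z1 h h1 h2
    apply h1
    have e : 2 * z1 + 1 = (2 * z + 1) - 2 * (z - z1) := by ring
    rw [e]
    exact dvd_sub h2 ((h3p.trans h).mul_left _)
  have heven : ∀ z : ℤ, (4 : ℤ) ∣ z - 2 → ¬ (2 : ℤ) ∣ 1 + z := by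
    intro z h; omega
  obtain ⟨h, hh⟩ := id hn
  rcases Nat.even_or_odd h with ⟨h', hh'⟩ | ⟨h', hh'⟩
  · -- n = 4 h' + 1
    have hn4 : n % 4 = 1 := by omega
    have hnoB : ∀ l : ℕ, l.Prime → l ^ 2 ∣ M → (l : ℤ) ∣ 9 * n - 8 → IsSquare (((-9 : ℤ)) : ZMod l) := by
      intro l hl hlM hd
      by_contra hns
      exact hsq l hl hlM (Or.inl ⟨hn4, hd, hns⟩)
    obtain ⟨z2, W2, hM2, hz2⟩ := MpartU 9 1 1 n (by norm_num) M hM c9 c2 hnoB (fun l hl h1 h2 => tab7 _ l hl h1 h2)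
    obtain ⟨z1, W1, hzW1, h31⟩ := three_part0 n w
    obtain ⟨w0, e, hw0⟩ : ∃ w0 e : ℤ, 2 * e = h' - 10 - w0 ^ 2 := by
      rcases Nat.even_or_odd h' with ⟨r, hr⟩ | ⟨r, hr⟩
      · exact ⟨0, r - 5, by rw [hr]; push_cast; ring⟩
      · exact ⟨1, r - 5, by rw [hr]; push_cast; ring⟩
    obtain ⟨s, c, hs⟩ := hens2U 18 19 e (by norm_num) (by norm_num) v
    obtain ⟨z, W, hzW, hz0, hW0, hz1, hzM⟩ := glueE 9 2 1 n _ _ _ c23 c2M c3M (4 * s + 2) (2 * w0) z1 W1 z2 W2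
      ⟨c, by
        rw [hh, hh']
        push_cast
        have : (2 : ℤ) ^ (v + 3) = 8 * 2 ^ v := by ring
        rw [this]
        linear_combination 8 * hs + 4 * hw0⟩
      hzW1
      (by
        have e : 9 * z2 ^ 2 + 2 * z2 + 1 + W2 ^ 2 - (n : ℤ) = 9 * z2 ^ 2 + 2 * 1 * z2 + 1 + W2 ^ 2 - n := by ring
        rw [e]; exact hM2)
    have h4z := hfour z s hz0
    refine ⟨![1 + z, 2 * z, 2 * z, W], z, ⟨?_, ?_⟩, ⟨rfl, ?_, Or.inl ⟨hn4, rfl, rfl⟩, h4z, hthree z z1 hz1 h31, ?_⟩⟩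
    · rw [Fin.sum_univ_four, hD]
      simp only [Matrix.cons_val_zero, Matrix.cons_val_one, Matrix.cons_val]
      have e : (1 + z) ^ 2 + (2 * z) ^ 2 + (2 * z) ^ 2 + W ^ 2 - (n : ℤ) = 9 * z ^ 2 + 2 * z + 1 + W ^ 2 - n := by ring
      rw [e]; exact hzW
    · intro l hl _
      by_contra hall
      push Not at hall
      have g0 : (l : ℤ) ∣ 1 + z := hall 0
      have g2 : (l : ℤ) ∣ 2 * z := hall 1
      have g : (l : ℤ) ∣ ((2 : ℕ) : ℤ) := by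
        have := dvd_sub (g0.mul_left 2) g2
        have e : 2 * (1 + z) - 2 * z = ((2 : ℕ) : ℤ) := by push_cast; ring
        rw [e] at this
        exact this
      have hl2 := (Nat.prime_dvd_prime_iff_eq hl Nat.prime_two).1 (Int.natCast_dvd_natCast.1 g)
      rw [hl2] at g0
      exact heven z h4z g0
    · show (2 : ℤ) ∣ W
      have e : W = (W - 2 * w0) + 2 * w0 := by ring
      rw [e]; exact dvd_add (h2p.trans hW0) (dvd_mul_right _ _)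
    · intro l hl hlM hlz
      have h3 : (l : ℤ) ∣ (M : ℤ) := Int.natCast_dvd_natCast.2 hlM
      obtain ⟨k1, k2⟩ := hz2 l hl hlM (by
        have e : 2 * z2 + 1 = (2 * z + 1) - 2 * (z - z2) := by ring
        rw [e]
        exact dvd_sub hlz ((h3.trans hzM).mul_left _))
      have h7 : l = 7 := by
        have h2 : (l : ℤ) ∣ ((7 : ℕ) : ℤ) := by
          have e : ((7 : ℕ) : ℤ) = 9 - 2 * 1 := by norm_num
          rw [e]; exact k1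
        exact (Nat.prime_dvd_prime_iff_eq hl (by norm_num)).1 (Int.natCast_dvd_natCast.1 h2)
      subst h7
      refine ⟨fun h49 => ?_, Or.inl ⟨hn4, rfl, k2⟩⟩
      have := hnoB 7 hl h49 k2
      revert this
      decide
  · -- n = 4 h' + 3
    have hn4 : n % 4 = 3 := by omega
    have hnoB : ∀ l : ℕ, l.Prime → l ^ 2 ∣ M → (l : ℤ) ∣ 3 * n - 8 → IsSquare (((-3 : ℤ)) : ZMod l) := by
      intro l hl hlM hd
      by_contra hns
      exact hsq l hl hlM (Or.inr ⟨hn4, hd, hns⟩)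
    obtain ⟨z2, W2, hM2, hz2⟩ := MpartU 3 (-1) 3 n (by norm_num) M hM c3 c2 hnoB (fun l hl h1 h2 => tab5 _ l hl h1 h2)
    obtain ⟨z1, W1, hzW1, h31⟩ := three_part1 n w
    obtain ⟨w0, e, hw0⟩ : ∃ w0 e : ℤ, 2 * e = h' - 2 - w0 ^ 2 := by
      rcases Nat.even_or_odd h' with ⟨r, hr⟩ | ⟨r, hr⟩
      · exact ⟨0, r - 1, by rw [hr]; push_cast; ring⟩
      · exact ⟨1, r - 1, by rw [hr]; push_cast; ring⟩
    obtain ⟨s, c, hs⟩ := hens2U 6 5 e (by norm_num) (by norm_num) v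
    obtain ⟨z, W, hzW, hz0, hW0, hz1, hzM⟩ := glueE 3 (-2) 3 n _ _ _ c23 c2M c3M (4 * s + 2) (2 * w0) z1 W1 z2 W2
      ⟨c, by
        rw [hh, hh']
        push_cast
        have : (2 : ℤ) ^ (v + 3) = 8 * 2 ^ v := by ring
        rw [this]
        linear_combination 8 * hs + 4 * hw0⟩
      hzW1
      (by
        have e : 3 * z2 ^ 2 + (-2) * z2 + 3 + W2 ^ 2 - (n : ℤ) = 3 * z2 ^ 2 + 2 * (-1) * z2 + 3 + W2 ^ 2 - n := by ring
        rw [e]; exact hM2)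
    have h4z := hfour z s hz0
    refine ⟨![-1 - z, z - 1, z - 1, W], z, ⟨?_, ?_⟩, ⟨rfl, ?_, Or.inr ⟨hn4, rfl, rfl⟩, h4z, hthree z z1 hz1 h31, ?_⟩⟩
    · rw [Fin.sum_univ_four, hD]
      simp only [Matrix.cons_val_zero, Matrix.cons_val_one, Matrix.cons_val]
      have e : (-1 - z) ^ 2 + (z - 1) ^ 2 + (z - 1) ^ 2 + W ^ 2 - (n : ℤ) = 3 * z ^ 2 + (-2) * z + 3 + W ^ 2 - n := by ring
      rw [e]; exact hzW
    · intro l hl _
      by_contra hall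
      push Not at hall
      have g0 : (l : ℤ) ∣ -1 - z := hall 0
      have g2 : (l : ℤ) ∣ z - 1 := hall 1
      have g : (l : ℤ) ∣ ((2 : ℕ) : ℤ) := by
        have := (dvd_neg).2 (dvd_add g0 g2)
        have e : -(-1 - z + (z - 1)) = ((2 : ℕ) : ℤ) := by push_cast; ring
        rw [e] at this
        exact this
      have hl2 := (Nat.prime_dvd_prime_iff_eq hl Nat.prime_two).1 (Int.natCast_dvd_natCast.1 g)
      rw [hl2] at g0
      apply heven z h4z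
      have e : 1 + z = -(-1 - z) := by ring
      rw [e]; exact (dvd_neg).2 g0
    · show (2 : ℤ) ∣ W
      have e : W = (W - 2 * w0) + 2 * w0 := by ring
      rw [e]; exact dvd_add (h2p.trans hW0) (dvd_mul_right _ _)
    · intro l hl hlM hlz
      have h3 : (l : ℤ) ∣ (M : ℤ) := Int.natCast_dvd_natCast.2 hlM
      obtain ⟨k1, k2⟩ := hz2 l hl hlM (by
        have e : 2 * z2 + 1 = (2 * z + 1) - 2 * (z - z2) := by ring
        rw [e]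
        exact dvd_sub hlz ((h3.trans hzM).mul_left _))
      have h5 : l = 5 := by
        have h2 : (l : ℤ) ∣ ((5 : ℕ) : ℤ) := by
          have e : ((5 : ℕ) : ℤ) = 3 - 2 * -1 := by norm_num
          rw [e]; exact k1
        exact (Nat.prime_dvd_prime_iff_eq hl (by norm_num)).1 (Int.natCast_dvd_natCast.1 h2)
      subst h5
      refine ⟨fun h25 => ?_, Or.inr ⟨hn4, rfl, k2⟩⟩
      have := hnoB 5 hl h25 k2
      revert this
      decide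

lemma finU (n v w M τ q : ℕ) (hq : q.Prime) (hq2 : q ≠ 2)
    (h1 : (2 : ZMod q) ^ (2 ^ v * 3 ^ w * M) = 1)
    (hT : 1 + 2 * (2 : ZMod q) ^ τ + 2 * ((2 : ZMod q) ^ τ) ^ 2 = 0)
    (h4 : τ % 4 = 2) (h3 : ¬ 3 ∣ 2 * τ + 1)
    (hMl : ∀ l : ℕ, l.Prime → l ∣ M → l ∣ 2 * τ + 1 → ¬ l ^ 2 ∣ M ∧
      ((n % 4 = 1 ∧ l = 7 ∧ (7 : ℤ) ∣ 9 * n - 8) ∨ (n % 4 = 3 ∧ l = 5 ∧ (5 : ℤ) ∣ 3 * n - 8))) :
    (n % 4 = 1 ∧ (7 : ℤ) ∣ 9 * n - 8 ∧ q = 113) ∨ (n % 4 = 3 ∧ (5 : ℤ) ∣ 3 * n - 8 ∧ q = 41) := by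
  have : Fact q.Prime := ⟨hq⟩
  have h20 : (2 : ZMod q) ≠ 0 := by
    intro h
    have h3 : ((2 : ℕ) : ZMod q) = 0 := by exact_mod_cast h
    rw [ZMod.natCast_eq_zero_iff] at h3
    exact hq2 ((Nat.prime_dvd_prime_iff_eq hq Nat.prime_two).1 h3)
  have hm1 : (2 : ZMod q) ^ (2 * (2 * τ + 1)) = -1 := by
    have e : (2 : ZMod q) ^ (2 * (2 * τ + 1)) = 4 * ((2 : ZMod q) ^ τ) ^ 4 := by
      rw [← pow_mul, show 2 * (2 * τ + 1) = τ * 4 + 2 by ring, pow_add]; ring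
    rw [e]
    linear_combination (1 - 2 * (2 : ZMod q) ^ τ + 2 * ((2 : ZMod q) ^ τ) ^ 2) * hT
  have hp : (2 : ZMod q) ^ (4 * (2 * τ + 1)) = 1 := by
    have e : (2 : ZMod q) ^ (4 * (2 * τ + 1)) = ((2 : ZMod q) ^ (2 * (2 * τ + 1))) ^ 2 := by
      rw [← pow_mul]; congr 1; ring
    rw [e, hm1]; ring
  have ho4 := orderOf_dvd_of_pow_eq_one hp
  have hoK := orderOf_dvd_of_pow_eq_one h1
  have ho2 : ¬ orderOf (2 : ZMod q) ∣ 2 * (2 * τ + 1) := by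
    intro h
    have h5 := orderOf_dvd_iff_pow_eq_one.1 h
    rw [hm1] at h5
    apply h20
    linear_combination -h5
  obtain ⟨m', hm', hom⟩ : ∃ m', m' ∣ 2 * τ + 1 ∧ orderOf (2 : ZMod q) = 4 * m' := by
    obtain ⟨a, b, ha, hb, hab⟩ := (Nat.dvd_mul).1 ho4
    have ha' : a = 1 ∨ a = 2 ∨ a = 4 := by
      have ha4 : a ≤ 4 := Nat.le_of_dvd (by norm_num) ha
      have h10 : 4 % a = 0 := Nat.mod_eq_zero_of_dvd ha
      have ha0 : a ≠ 0 := by rintro rfl; simp at ha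
      interval_cases a <;> omega
    rcases ha' with rfl | rfl | rfl
    · exact absurd (by rw [← hab, one_mul]; exact hb.mul_left 2) ho2
    · exact absurd (by rw [← hab]; exact Nat.mul_dvd_mul_left 2 hb) ho2
    · exact ⟨b, hb, hab.symm⟩
  have hmM : m' ∣ M := by
    have h5 : m' ∣ 2 ^ v * 3 ^ w * M := by
      rw [hom] at hoK
      exact (dvd_mul_left m' 4).trans hoK
    have c2 : Nat.Coprime m' (2 ^ v) := by
      apply Nat.Coprime.pow_right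
      rw [Nat.coprime_comm, Nat.Prime.coprime_iff_not_dvd Nat.prime_two]
      intro h6
      have := h6.trans hm'
      omega
    have c3 : Nat.Coprime m' (3 ^ w) := by
      apply Nat.Coprime.pow_right
      rw [Nat.coprime_comm, Nat.Prime.coprime_iff_not_dvd Nat.prime_three]
      exact fun h6 => h3 (h6.trans hm')
    exact Nat.Coprime.dvd_of_dvd_mul_left (Nat.Coprime.mul_right c2 c3) h5
  by_cases hm1' : m' = 1
  · exfalso
    rw [hm1', mul_one] at hom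
    have h16 : (2 : ZMod q) ^ 4 = 1 := by rw [← hom]; exact pow_orderOf_eq_one _
    obtain ⟨a, ha⟩ : ∃ a, τ = 4 * a + 2 := ⟨τ / 4, by omega⟩
    have hTT : (2 : ZMod q) ^ τ = 4 := by
      rw [ha, pow_add, pow_mul, h16, one_pow]; norm_num
    rw [hTT] at hT
    have h41 : (1 : ZMod q) = 0 := by
      linear_combination 11 * h16 - 4 * hT
    exact one_ne_zero h41
  · obtain ⟨l, hlp, hlm⟩ := Nat.exists_prime_and_dvd hm1'
    obtain ⟨hl2, hcase⟩ := hMl l hlp (hlm.trans hmM) (hlm.trans hm')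
    have hml : m' = l := by
      obtain ⟨b, hb⟩ := hlm
      by_cases hb1 : b = 1
      · rw [hb, hb1, mul_one]
      · exfalso
        obtain ⟨l', hl'p, hl'b⟩ := Nat.exists_prime_and_dvd hb1
        have hl'm : l' ∣ m' := by rw [hb]; exact hl'b.mul_left _
        obtain ⟨-, hcase'⟩ := hMl l' hl'p (hl'm.trans hmM) (hl'm.trans hm')
        have hll : l' = l := by
          rcases hcase with ⟨g1, g2, -⟩ | ⟨g1, g2, -⟩ <;> rcases hcase' with ⟨k1, k2, -⟩ | ⟨k1, k2, -⟩ <;> omega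
        apply hl2
        rw [hll] at hl'b
        have h9 : l ^ 2 ∣ m' := by rw [hb, pow_two]; exact Nat.mul_dvd_mul_left l hl'b
        exact h9.trans hmM
    rcases hcase with ⟨g1, g2, g3⟩ | ⟨g1, g2, g3⟩
    · left
      refine ⟨g1, g3, ?_⟩
      rw [hml, g2] at hom hm'
      have h28 : (2 : ZMod q) ^ 28 = 1 := by
        have e : 4 * 7 = 28 := by norm_num
        rw [e] at hom
        rw [← hom]; exact pow_orderOf_eq_one _
      obtain ⟨a, ha⟩ : ∃ a, τ = 28 * a + 10 := ⟨τ / 28, by omega⟩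
      have hTT : (2 : ZMod q) ^ τ = 1024 := by
        rw [ha, pow_add, pow_mul, h28, one_pow]; norm_num
      have h14 : (2 : ZMod q) ^ 14 = -1 := by
        rw [← hm1, ha, show 2 * (2 * (28 * a + 10) + 1) = 28 * (4 * a + 1) + 14 by ring, pow_add, pow_mul, h28,
          one_pow, one_mul]
      rw [hTT] at hT
      have h113 : ((113 : ℕ) : ZMod q) = 0 := by
        push_cast
        linear_combination 2178 * h14 - 17 * hT
      rw [ZMod.natCast_eq_zero_iff] at h113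
      exact (Nat.prime_dvd_prime_iff_eq hq (by norm_num)).1 h113
    · right
      refine ⟨g1, g3, ?_⟩
      rw [hml, g2] at hom hm'
      have h20' : (2 : ZMod q) ^ 20 = 1 := by
        have e : 4 * 5 = 20 := by norm_num
        rw [e] at hom
        rw [← hom]; exact pow_orderOf_eq_one _
      obtain ⟨a, ha⟩ : ∃ a, τ = 20 * a + 2 := ⟨τ / 20, by omega⟩
      have hTT : (2 : ZMod q) ^ τ = 4 := by
        rw [ha, pow_add, pow_mul, h20', one_pow]; norm_num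
      rw [hTT] at hT
      have h41 : ((41 : ℕ) : ZMod q) = 0 := by
        push_cast
        linear_combination hT
      rw [ZMod.natCast_eq_zero_iff] at h41
      exact (Nat.prime_dvd_prime_iff_eq hq (by norm_num)).1 h41

theorem coprimeU (n v w M : ℕ) (hv : 1 ≤ v) (u : Fin 4 → ℤ) (t : ℤ) (hP : PatU n M u t)
    (x y z : ℕ) (hx : ((2 ^ (v + 2) * 3 ^ (w + 1) * M : ℕ) : ℤ) ∣ (x : ℤ) - u 0)
    (hy : ((2 ^ (v + 2) * 3 ^ (w + 1) * M : ℕ) : ℤ) ∣ (y : ℤ) - u 1)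
    (hz : ((2 ^ (v + 2) * 3 ^ (w + 1) * M : ℕ) : ℤ) ∣ (z : ℤ) - u 2)
    (q : ℕ) (hq : q.Prime) (hN : q ∣ 2 ^ x + 2 ^ y + 2 ^ z + 1) (hK : q ∣ 2 * (2 ^ (2 ^ v * 3 ^ w * M) - 1)) :
    q ≠ 2 ∧ ((n % 4 = 1 ∧ (7 : ℤ) ∣ 9 * n - 8 ∧ q = 113) ∨ (n % 4 = 3 ∧ (5 : ℤ) ∣ 3 * n - 8 ∧ q = 41)) := by
  obtain ⟨D, hD⟩ : ∃ D : ℕ, D = 2 ^ (v + 2) * 3 ^ (w + 1) * M := ⟨_, rfl⟩
  rw [← hD] at hx hy hz
  have h12 : D = 12 * (2 ^ v * 3 ^ w * M) := by rw [hD]; ring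
  have h8 : (8 : ℤ) ∣ (D : ℤ) := by
    obtain ⟨v', hv'⟩ := Nat.exists_eq_add_of_le hv
    have e : D = 8 * (2 ^ v' * 3 ^ (w + 1) * M) := by rw [hD, hv']; ring
    rw [e]; push_cast; exact dvd_mul_right _ _
  have dK : ((2 ^ v * 3 ^ w * M : ℕ) : ℤ) ∣ (D : ℤ) := by rw [h12]; push_cast; exact dvd_mul_left _ _
  have dM : (M : ℤ) ∣ (D : ℤ) := by rw [hD]; push_cast; exact dvd_mul_left _ _
  have d3 : (3 : ℤ) ∣ (D : ℤ) := by rw [h12]; push_cast; exact Dvd.dvd.mul_right (by norm_num) _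
  have he2 := hP.e2
  have h4 := hP.four
  have x8 := h8.trans hx
  have y8 := h8.trans hy
  have z8 := h8.trans hz
  have hpos : 1 ≤ x ∧ 1 ≤ y ∧ 1 ≤ z := by
    rcases hP.pat with ⟨-, g1, g2⟩ | ⟨-, g1, g2⟩
    · rw [he2, g2] at z8
      rw [g2] at y8
      rw [g1] at x8
      refine ⟨?_, ?_, ?_⟩ <;> omega
    · rw [he2, g2] at z8
      rw [g2] at y8
      rw [g1] at x8
      refine ⟨?_, ?_, ?_⟩ <;> omega
  obtain ⟨hx1, hy1, hz1⟩ := hpos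
  have hq2 : q ≠ 2 := by
    rintro rfl
    obtain ⟨x', rfl⟩ := Nat.exists_eq_add_of_le hx1
    obtain ⟨y', rfl⟩ := Nat.exists_eq_add_of_le hy1
    obtain ⟨z', rfl⟩ := Nat.exists_eq_add_of_le hz1
    rw [pow_add, pow_add, pow_add] at hN
    omega
  refine ⟨hq2, ?_⟩
  have hK' : q ∣ 2 ^ (2 ^ v * 3 ^ w * M) - 1 := by
    rcases hq.dvd_mul.1 hK with h | h
    · exact absurd ((Nat.prime_dvd_prime_iff_eq hq Nat.prime_two).1 h) hq2
    · exact h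
  have : Fact q.Prime := ⟨hq⟩
  have h1 : (2 : ZMod q) ^ (2 ^ v * 3 ^ w * M) = 1 := by
    have h : ((2 ^ (2 ^ v * 3 ^ w * M) - 1 : ℕ) : ZMod q) = 0 := (ZMod.natCast_eq_zero_iff _ _).2 hK'
    rw [Nat.cast_sub Nat.one_le_two_pow] at h
    push_cast at h
    linear_combination h
  have h3 : (2 : ZMod q) ^ x + 2 ^ y + 2 ^ z + 1 = 0 := by
    have h : ((2 ^ x + 2 ^ y + 2 ^ z + 1 : ℕ) : ZMod q) = 0 := (ZMod.natCast_eq_zero_iff _ _).2 hN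
    push_cast at h
    exact h
  have hyz : (2 : ZMod q) ^ z = 2 ^ y := by
    apply pow_congr_of_dvd _ h1
    apply dK.trans
    have e : (z : ℤ) - y = (z - u 2) - (y - u 1) := by rw [he2]; ring
    rw [e]; exact dvd_sub hz hy
  rw [hyz] at h3
  obtain ⟨τ, hτ, hT⟩ : ∃ τ : ℕ, (D : ℤ) ∣ (τ : ℤ) - t ∧ 1 + 2 * (2 : ZMod q) ^ τ + 2 * ((2 : ZMod q) ^ τ) ^ 2 = 0 := by
    rcases hP.pat with ⟨-, g1, g2⟩ | ⟨-, g1, g2⟩
    · obtain ⟨τ, rfl⟩ := Nat.exists_eq_add_of_le hx1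
      have hτ : (D : ℤ) ∣ (τ : ℤ) - t := by
        have e : (τ : ℤ) - t = ((1 + τ : ℕ) : ℤ) - u 0 := by rw [g1]; push_cast; ring
        rw [e]; exact hx
      refine ⟨τ, hτ, ?_⟩
      have e1 : (2 : ZMod q) ^ y = 2 ^ (τ + τ) := by
        apply pow_congr_of_dvd _ h1
        apply dK.trans
        have e : (y : ℤ) - ((τ + τ : ℕ) : ℤ) = (y - u 1) - 2 * (τ - t) := by rw [g2]; push_cast; ring
        rw [e]; exact dvd_sub hy (hτ.mul_left _)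
      rw [e1, pow_add, pow_add, pow_one] at h3
      linear_combination h3
    · have hτ : (D : ℤ) ∣ ((y + 1 : ℕ) : ℤ) - t := by
        have e : ((y + 1 : ℕ) : ℤ) - t = (y : ℤ) - u 1 := by rw [g2]; push_cast; ring
        rw [e]; exact hy
      refine ⟨y + 1, hτ, ?_⟩
      have e1 : (2 : ZMod q) ^ (x + (y + 1) + 1) = 2 ^ 0 := by
        apply pow_congr_of_dvd _ h1
        apply dK.trans
        have e : ((x + (y + 1) + 1 : ℕ) : ℤ) - ((0 : ℕ) : ℤ) = (x - u 0) + (((y + 1 : ℕ) : ℤ) - t) := by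
          rw [g1]; push_cast; ring
        rw [e]; exact dvd_add hx hτ
      rw [pow_add, pow_add, pow_add, pow_zero, pow_one] at e1
      rw [pow_add, pow_one]
      linear_combination 2 * (2 : ZMod q) ^ y * 2 * h3 - e1
  have hτ8 := h8.trans hτ
  have hτ3 := d3.trans hτ
  have hτM := dM.trans hτ
  apply finU n v w M τ q hq hq2 h1 hT
  · omega
  · intro h
    apply hP.three
    omega
  · intro l hl hlM hlτ
    apply hP.mp l hl hlM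
    have g1 : (l : ℤ) ∣ (M : ℤ) := Int.natCast_dvd_natCast.2 hlM
    have g2 : (l : ℤ) ∣ ((2 * τ + 1 : ℕ) : ℤ) := Int.natCast_dvd_natCast.2 hlτ
    have e : 2 * t + 1 = ((2 * τ + 1 : ℕ) : ℤ) - 2 * (τ - t) := by push_cast; ring
    rw [e]
    exact dvd_sub g2 ((g1.trans hτM).mul_left _)

end Pool.Agent.N719.SP
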