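import Pool.Agent.TH696.FA.Local2

/-!
# Local solutions with an exponent which is prime to the modulus
-/

set_option autoImplicit false
open Finset

namespace Pool.Agent.N719.SP
open Pool.Agent.W65.FS Pool.Agent.TH696.FA

/-- sign changes avoid one class modulo every prime factor -/
lemma flip (b : ℤ) (m : ℕ) : 0 < m → IsCoprime (2 * b) (m : ℤ) → ∀ X : ℤ, ∃ X' : ℤ,
    (m : ℤ) ∣ X' ^ 2 - X ^ 2 ∧ IsCoprime (X' - b) (m : ℤ) := by
  induction m using Nat.recOnPosPrimePosCoprime with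
  | prime_pow p n hp hn =>
    intro _ h2 X
    have hpZ : Prime (p : ℤ) := Nat.prime_iff_prime_int.1 hp
    have h2p : IsCoprime (2 * b) (p : ℤ) := by
      rw [Nat.cast_pow] at h2
      exact (IsCoprime.pow_right_iff hn).1 h2
    by_cases h : (p : ℤ) ∣ X - b
    · refine ⟨-X, by simp, ?_⟩
      rw [Nat.cast_pow]
      apply IsCoprime.pow_right
      apply IsCoprime.symm
      rw [Prime.coprime_iff_not_dvd hpZ]
      intro h3
      have h4 : (p : ℤ) ∣ 2 * b := by
        have e : 2 * b = -((-X - b) + (X - b)) := by ring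
        rw [e]
        exact (dvd_neg).2 (dvd_add h3 h)
      exact hpZ.not_isUnit (h2p.isUnit_of_dvd' h4 dvd_rfl)
    · refine ⟨X, by simp, ?_⟩
      rw [Nat.cast_pow]
      apply IsCoprime.pow_right
      apply IsCoprime.symm
      rw [Prime.coprime_iff_not_dvd hpZ]
      exact h
  | zero => intro h; exact absurd h (lt_irrefl 0)
  | one => intro _ _ X; exact ⟨X, by simp, by rw [Nat.cast_one]; exact isCoprime_one_right⟩
  | coprime a c ha hc hac iha ihc =>
    intro _ h2 X
    rw [Nat.cast_mul] at h2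
    obtain ⟨Xa, ha1, ha2⟩ := iha (by omega) h2.of_mul_right_left X
    obtain ⟨Xc, hc1, hc2⟩ := ihc (by omega) h2.of_mul_right_right X
    have hacZ : IsCoprime (a : ℤ) (c : ℤ) := Nat.isCoprime_iff_coprime.2 hac
    obtain ⟨Y, hYa, hYc⟩ := crt2 _ _ hacZ Xa Xc
    refine ⟨Y, ?_, ?_⟩
    · rw [Nat.cast_mul]
      apply IsCoprime.mul_dvd hacZ
      · have e : Y ^ 2 - X ^ 2 = (Y - Xa) * (Y + Xa) + (Xa ^ 2 - X ^ 2) := by ring
        rw [e]
        exact dvd_add (hYa.mul_right _) ha1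
      · have e : Y ^ 2 - X ^ 2 = (Y - Xc) * (Y + Xc) + (Xc ^ 2 - X ^ 2) := by ring
        rw [e]
        exact dvd_add (hYc.mul_right _) hc1
    · rw [Nat.cast_mul]
      apply IsCoprime.mul_right
      · obtain ⟨k, hk⟩ := hYa
        have e : Y - b = (Xa - b) + k * a := by linear_combination hk
        rw [e]
        exact IsCoprime.add_mul_right_left ha2 k
      · obtain ⟨k, hk⟩ := hYc
        have e : Y - b = (Xc - b) + k * c := by linear_combination hk
        rw [e]
        exact IsCoprime.add_mul_right_left hc2 k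

/-- a binary form `X² + d W²` represents all `t` to moduli coprime to `2 d`, primitively at every prime factor, if
`-d` is a square modulo the prime factors which divide `t` -/
lemma binaryE (d : ℤ) : ∀ m : ℕ, 0 < m → IsCoprime (2 * d) (m : ℤ) → ∀ t : ℤ,
    (∀ l : ℕ, l.Prime → l ∣ m → (l : ℤ) ∣ t → IsSquare (((-d : ℤ)) : ZMod l)) →
    ∃ X W : ℤ, (m : ℤ) ∣ X ^ 2 + d * W ^ 2 - t ∧ ∀ l : ℕ, l.Prime → l ∣ m → ¬ ((l : ℤ) ∣ X ∧ (l : ℤ) ∣ W) := by
  intro m
  induction m using Nat.strong_induction_on with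
  | _ m ih =>
    intro hm hd t ht
    by_cases h1 : m = 1
    · subst h1
      refine ⟨0, 0, by simp, ?_⟩
      intro l hl hl1
      exact absurd (Nat.dvd_one.1 hl1) hl.one_lt.ne'
    · set l := m.minFac with hl
      have hlp : l.Prime := Nat.minFac_prime h1
      have hlpZ : Prime (l : ℤ) := Nat.prime_iff_prime_int.1 hlp
      obtain ⟨m', hm'⟩ : l ∣ m := Nat.minFac_dvd m
      have hm'0 : 0 < m' := by
        rcases Nat.eq_zero_or_pos m' with h | h
        · rw [h] at hm'; omega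
        · exact h
      have hm'lt : m' < m := by
        rw [hm']
        exact (Nat.lt_mul_iff_one_lt_left hm'0).2 hlp.one_lt
      have hmZ : (m : ℤ) = l * m' := by exact_mod_cast hm'
      have hdm' : IsCoprime (2 * d) (m' : ℤ) := by rw [hmZ] at hd; exact hd.of_mul_right_right
      have hdl : IsCoprime (2 * d) (l : ℤ) := by rw [hmZ] at hd; exact hd.of_mul_right_left
      obtain ⟨X, W, ⟨F, hF⟩, hpr⟩ := ih m' hm'lt hm'0 hdm' t
        (fun p hp hpm => ht p hp (by rw [hm']; exact hpm.mul_left _))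
      have hprime_dvd : ∀ p : ℕ, p.Prime → p ∣ m → p = l ∨ p ∣ m' := by
        intro p hp hpm
        rw [hm'] at hpm
        rcases hp.dvd_mul.1 hpm with h | h
        · exact Or.inl ((Nat.prime_dvd_prime_iff_eq hp hlp).1 h)
        · exact Or.inr h
      by_cases hlm' : l ∣ m'
      · -- Hensel step
        have hXW : ¬ ((l : ℤ) ∣ X ∧ (l : ℤ) ∣ W) := hpr l hlp hlm'
        obtain ⟨m'', hm''⟩ := hlm'
        have hm''Z : (m' : ℤ) = l * m'' := by exact_mod_cast hm''
        have h2l : IsCoprime (2 : ℤ) (l : ℤ) := hdl.of_mul_left_left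
        have hdl' : IsCoprime d (l : ℤ) := hdl.of_mul_left_right
        have hkeep : ∀ X' W' : ℤ, (m' : ℤ) ∣ X' - X → (m' : ℤ) ∣ W' - W →
            ∀ p : ℕ, p.Prime → p ∣ m → ¬ ((p : ℤ) ∣ X' ∧ (p : ℤ) ∣ W') := by
          rintro X' W' hX' hW' p hp hpm ⟨g1, g2⟩
          have hpm' : p ∣ m' := by
            rcases hprime_dvd p hp hpm with h | h
            · rw [h, hm'']; exact dvd_mul_right _ _
            · exact h
          have hpZ : (p : ℤ) ∣ (m' : ℤ) := Int.natCast_dvd_natCast.2 hpm'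
          apply hpr p hp hpm'
          constructor
          · have e : X = X' - (X' - X) := by ring
            rw [e]; exact dvd_sub g1 (hpZ.trans hX')
          · have e : W = W' - (W' - W) := by ring
            rw [e]; exact dvd_sub g2 (hpZ.trans hW')
        by_cases hX : (l : ℤ) ∣ X
        · have hW : ¬ (l : ℤ) ∣ W := fun h => hXW ⟨hX, h⟩
          have hWl : IsCoprime W (l : ℤ) := ((Prime.coprime_iff_not_dvd hlpZ).2 hW).symm
          have hc : IsCoprime (2 * d * W) (l : ℤ) := IsCoprime.mul_left hdl hWl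
          obtain ⟨p, q, hpq⟩ := hc
          refine ⟨X, W + m' * (-(F * p)), ⟨q * F + d * m'' * (F * p) ^ 2, ?_⟩,
            hkeep _ _ (by simp) ⟨-(F * p), by ring⟩⟩
          rw [hmZ]
          have e1 : X ^ 2 + d * (W + m' * (-(F * p))) ^ 2 - t =
            (X ^ 2 + d * W ^ 2 - t) - (m' : ℤ) * (2 * d * W * (F * p)) + d * m' ^ 2 * (F * p) ^ 2 := by ring
          rw [e1, hF]
          have e2 : p * (2 * d * W) = 1 - q * l := by linear_combination hpq
          have e3 : (m' : ℤ) ^ 2 = m' * (l * m'') := by rw [← hm''Z]; ring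
          rw [e3]
          linear_combination (-(m' : ℤ) * F) * e2
        · have hXl : IsCoprime X (l : ℤ) := ((Prime.coprime_iff_not_dvd hlpZ).2 hX).symm
          have hc : IsCoprime (2 * X) (l : ℤ) := IsCoprime.mul_left h2l hXl
          obtain ⟨p, q, hpq⟩ := hc
          refine ⟨X + m' * (-(F * p)), W, ⟨q * F + m'' * (F * p) ^ 2, ?_⟩,
            hkeep _ _ ⟨-(F * p), by ring⟩ (by simp)⟩
          rw [hmZ]
          have e1 : (X + m' * (-(F * p))) ^ 2 + d * W ^ 2 - t =
            (X ^ 2 + d * W ^ 2 - t) - (m' : ℤ) * (2 * X * (F * p)) + m' ^ 2 * (F * p) ^ 2 := by ring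
          rw [e1, hF]
          have e3 : (m' : ℤ) ^ 2 = m' * (l * m'') := by rw [← hm''Z]; ring
          rw [e3]
          linear_combination (-(m' : ℤ) * F) * hpq
      · -- new prime
        have hcop : IsCoprime (l : ℤ) (m' : ℤ) := Nat.isCoprime_iff_coprime.2 ((Nat.Prime.coprime_iff_not_dvd hlp).2 hlm')
        have : Fact l.Prime := ⟨hlp⟩
        obtain ⟨Y, V, hYV, hYVp⟩ : ∃ Y V : ℤ, (l : ℤ) ∣ Y ^ 2 + d * V ^ 2 - t ∧ ¬ ((l : ℤ) ∣ Y ∧ (l : ℤ) ∣ V) := by
          by_cases hlt : (l : ℤ) ∣ t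
          · obtain ⟨s, hs⟩ := ht l hlp (by rw [hm']; exact dvd_mul_right _ _) hlt
            refine ⟨(s.val : ℤ), 1, ?_, ?_⟩
            · have h0 : ((t : ℤ) : ZMod l) = 0 := (ZMod.intCast_zmod_eq_zero_iff_dvd _ _).2 hlt
              rw [← ZMod.intCast_zmod_eq_zero_iff_dvd]
              push_cast
              rw [ZMod.natCast_zmod_val, h0]
              push_cast at hs
              linear_combination -hs
            · rintro ⟨-, h⟩
              exact hlpZ.not_isUnit (isUnit_of_dvd_one h)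
          · have hd0 : ((d : ℤ) : ZMod l) ≠ 0 := by
              intro h
              have h3 : (l : ℤ) ∣ d := (ZMod.intCast_zmod_eq_zero_iff_dvd _ _).1 h
              exact hlpZ.not_isUnit ((hdl.of_mul_left_right).isUnit_of_dvd' h3 dvd_rfl)
            have hl2 : l ≠ 2 := by
              intro h
              have h2l : IsCoprime (2 : ℤ) (l : ℤ) := hdl.of_mul_left_left
              rw [h] at h2l
              have := h2l.isUnit_of_dvd' (dvd_refl _) (by norm_num)
              rw [Int.isUnit_iff] at this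
              omega
            have hcard : Fintype.card (ZMod l) % 2 = 1 := by
              rw [ZMod.card]
              exact hlp.eq_two_or_odd.resolve_left hl2
            obtain ⟨a, b, hab⟩ := FiniteField.exists_root_sum_quadratic
              (f := (Polynomial.X ^ 2 : Polynomial (ZMod l)))
              (g := (Polynomial.C ((d : ℤ) : ZMod l) * Polynomial.X ^ 2 - Polynomial.C ((t : ℤ) : ZMod l)))
              (Polynomial.degree_X_pow 2)
              (by
                rw [Polynomial.degree_sub_C]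
                · exact Polynomial.degree_C_mul_X_pow 2 hd0
                · rw [Polynomial.degree_C_mul_X_pow 2 hd0]
                  norm_num)
              hcard
            have hmain : (l : ℤ) ∣ (a.val : ℤ) ^ 2 + d * (b.val : ℤ) ^ 2 - t := by
              rw [← ZMod.intCast_zmod_eq_zero_iff_dvd]
              push_cast
              rw [ZMod.natCast_zmod_val, ZMod.natCast_zmod_val]
              simp only [Polynomial.eval_pow, Polynomial.eval_X, Polynomial.eval_sub, Polynomial.eval_mul,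
                Polynomial.eval_C] at hab
              linear_combination hab
            refine ⟨(a.val : ℤ), (b.val : ℤ), hmain, ?_⟩
            rintro ⟨g1, g2⟩
            apply hlt
            have e : t = (a.val : ℤ) * (a.val : ℤ) + d * (b.val : ℤ) * (b.val : ℤ) -
              ((a.val : ℤ) ^ 2 + d * (b.val : ℤ) ^ 2 - t) := by ring
            rw [e]
            exact dvd_sub (dvd_add (g1.mul_left _) (g2.mul_left _)) hmain
        obtain ⟨X', hx1, hx2⟩ := crt2 _ _ hcop Y X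
        obtain ⟨W', hw1, hw2⟩ := crt2 _ _ hcop V W
        refine ⟨X', W', ?_, ?_⟩
        · rw [hmZ]
          apply IsCoprime.mul_dvd hcop
          · have e : X' ^ 2 + d * W' ^ 2 - t = (X' - Y) * (X' + Y) + (W' - V) * (d * (W' + V)) + (Y ^ 2 + d * V ^ 2 - t) := by ring
            rw [e]
            exact dvd_add (dvd_add (hx1.mul_right _) (hw1.mul_right _)) hYV
          · have e : X' ^ 2 + d * W' ^ 2 - t = (X' - X) * (X' + X) + (W' - W) * (d * (W' + W)) + (X ^ 2 + d * W ^ 2 - t) := by ring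
            rw [e]
            exact dvd_add (dvd_add (hx2.mul_right _) (hw2.mul_right _)) ⟨F, hF⟩
        · rintro p hp hpm ⟨g1, g2⟩
          rcases hprime_dvd p hp hpm with h | h
          · rw [h] at g1 g2
            apply hYVp
            constructor
            · have e : Y = X' - (X' - Y) := by ring
              rw [e]; exact dvd_sub g1 hx1
            · have e : V = W' - (W' - V) := by ring
              rw [e]; exact dvd_sub g2 hw1
          · have hpZ : (p : ℤ) ∣ (m' : ℤ) := Int.natCast_dvd_natCast.2 h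
            apply hpr p hp h
            constructor
            · have e : X = X' - (X' - X) := by ring
              rw [e]; exact dvd_sub g1 (hpZ.trans hx2)
            · have e : W = W' - (W' - W) := by ring
              rw [e]; exact dvd_sub g2 (hpZ.trans hw2)

/-- the part of the modulus that is coprime to 6 -/
lemma MpartE (α β C n : ℤ) (hC : α * C = β ^ 2 + 2) (M : ℕ) (hM : 0 < M) (hα : IsCoprime α (M : ℤ))
    (h2 : IsCoprime 2 (M : ℤ)) (hβ : IsCoprime β (M : ℤ))
    (hsq : ∀ l : ℕ, l.Prime → l ^ 2 ∣ M → (l : ℤ) ∣ α * n - 2 → IsSquare (((-α : ℤ)) : ZMod l)) :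
    ∃ z W : ℤ, (M : ℤ) ∣ α * z ^ 2 + 2 * β * z + C + W ^ 2 - n ∧ IsCoprime z (M : ℤ) := by
  -- `M2`: product of the primes `l` with `l ∣ α n - 2`, `l ∥ M`
  set F : Finset ℕ := M.primeFactors.filter (fun l : ℕ => (l : ℤ) ∣ α * n - 2 ∧ ¬ l ^ 2 ∣ M) with hF
  set M2 : ℕ := ∏ l ∈ F, l with hM2
  have hM2d : M2 ∣ M := by
    refine (Finset.prod_dvd_prod_of_subset _ _ _ (Finset.filter_subset _ _)).trans (Nat.prod_primeFactors_dvd M)
  obtain ⟨M1, hM1⟩ := hM2d
  have hM10 : 0 < M1 := by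
    rcases Nat.eq_zero_or_pos M1 with h | h
    · rw [h] at hM1; omega
    · exact h
  have hM20 : 0 < M2 := by
    rcases Nat.eq_zero_or_pos M2 with h | h
    · rw [h] at hM1; omega
    · exact h
  have hMZ : (M : ℤ) = M2 * M1 := by exact_mod_cast hM1
  have hmem : ∀ l : ℕ, l.Prime → (l ∣ M2 ↔ l ∣ M ∧ (l : ℤ) ∣ α * n - 2 ∧ ¬ l ^ 2 ∣ M) := by
    intro l hl
    rw [hM2, Prime.dvd_finsetProd_iff hl.prime]
    constructor
    · rintro ⟨p, hp, hlp⟩
      rw [hF, Finset.mem_filter, Nat.mem_primeFactors] at hp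
      have := (Nat.prime_dvd_prime_iff_eq hl hp.1.1).1 hlp
      subst this
      exact ⟨hp.1.2.1, hp.2.1, hp.2.2⟩
    · rintro ⟨g1, g2, g3⟩
      exact ⟨l, by rw [hF, Finset.mem_filter, Nat.mem_primeFactors]; exact ⟨⟨hl, g1, hM.ne'⟩, g2, g3⟩, dvd_rfl⟩
  have c12 : Nat.Coprime M2 M1 := by
    apply Nat.coprime_of_dvd
    intro l hl h3 h4
    have h5 := (hmem l hl).1 h3
    apply h5.2.2
    rw [hM1, pow_two]
    exact Nat.mul_dvd_mul h3 h4
  have hM2div : (M2 : ℤ) ∣ α * n - 2 := by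
    have h5 : (M2 : ℤ) = ∏ l ∈ F, (l : ℤ) := by
      rw [hM2]; push_cast; rfl
    rw [h5]
    apply Finset.prod_dvd_of_coprime
    · intro a ha b hb hab
      have ha' := (Nat.mem_primeFactors.1 (Finset.mem_filter.1 ha).1).1
      have hb' := (Nat.mem_primeFactors.1 (Finset.mem_filter.1 hb).1).1
      exact Nat.isCoprime_iff_coprime.2 ((Nat.coprime_primes ha' hb').2 hab)
    · intro a ha
      exact (Finset.mem_filter.1 ha).2.1
  have cα1 : IsCoprime (2 * α) (M1 : ℤ) := by
    rw [hMZ] at hα h2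
    exact IsCoprime.mul_left h2.of_mul_right_right hα.of_mul_right_right
  have c2β1 : IsCoprime (2 * β) (M1 : ℤ) := by
    rw [hMZ] at hβ h2
    exact IsCoprime.mul_left h2.of_mul_right_right hβ.of_mul_right_right
  obtain ⟨X0, W1, h1, -⟩ := binaryE α M1 hM10 cα1 (α * n - 2) (by
    intro l hl hlM1 hlt
    apply hsq l hl _ hlt
    by_contra h6
    have h7 : l ∣ M2 := (hmem l hl).2 ⟨by rw [hM1]; exact hlM1.mul_left _, hlt, h6⟩
    have h8 := Nat.dvd_gcd h7 hlM1
    rw [c12] at h8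
    exact hl.one_lt.ne' (Nat.dvd_one.1 h8))
  obtain ⟨X1, hX1, hX1c⟩ := flip β M1 hM10 c2β1 X0
  have c12Z : IsCoprime (M2 : ℤ) (M1 : ℤ) := Nat.isCoprime_iff_coprime.2 c12
  obtain ⟨X, hX2, hX1'⟩ := crt2 _ _ c12Z 0 X1
  obtain ⟨W, hW2, hW1⟩ := crt2 _ _ c12Z 0 W1
  rw [sub_zero] at hX2 hW2
  have hXW : (M : ℤ) ∣ X ^ 2 + α * W ^ 2 - (α * n - 2) := by
    rw [hMZ]
    apply IsCoprime.mul_dvd c12Z
    · have e : X ^ 2 + α * W ^ 2 - (α * n - 2) = X * X + W * (α * W) - (α * n - 2) := by ring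
      rw [e]
      exact dvd_sub (dvd_add (hX2.mul_right _) (hW2.mul_right _)) hM2div
    · have e : X ^ 2 + α * W ^ 2 - (α * n - 2) = (X - X1) * (X + X1) + (W - W1) * (α * (W + W1)) +
        (X1 ^ 2 - X0 ^ 2) + (X0 ^ 2 + α * W1 ^ 2 - (α * n - 2)) := by ring
      rw [e]
      exact dvd_add (dvd_add (dvd_add (hX1'.mul_right _) (hW1.mul_right _)) hX1) h1
  have hXβ : IsCoprime (X - β) (M : ℤ) := by
    rw [hMZ]
    apply IsCoprime.mul_right
    · obtain ⟨k, hk⟩ := hX2
      have e : X - β = -β + k * M2 := by linear_combination hk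
      rw [e]
      apply IsCoprime.add_mul_right_left
      rw [IsCoprime.neg_left_iff]
      rw [hMZ] at hβ
      exact hβ.of_mul_right_left
    · obtain ⟨k, hk⟩ := hX1'
      have e : X - β = (X1 - β) + k * M1 := by linear_combination hk
      rw [e]
      exact IsCoprime.add_mul_right_left hX1c k
  obtain ⟨a, b, hab⟩ := hα
  refine ⟨a * (X - β), W, ?_, ?_⟩
  · have hfin : (M : ℤ) ∣ α * (α * (a * (X - β)) ^ 2 + 2 * β * (a * (X - β)) + C + W ^ 2 - n) := by
      have e0 : a * α = 1 - b * M := by linear_combination hab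
      have e1 : α * (a * (X - β)) + β = X - M * (b * (X - β)) := by
        linear_combination (X - β) * e0
      have e : α * (α * (a * (X - β)) ^ 2 + 2 * β * (a * (X - β)) + C + W ^ 2 - n) =
          (α * (a * (X - β)) + β) ^ 2 + α * W ^ 2 - (α * n - 2) := by
        linear_combination hC
      rw [e, e1]
      have e2 : (X - M * (b * (X - β))) ^ 2 + α * W ^ 2 - (α * n - 2) =
        (X ^ 2 + α * W ^ 2 - (α * n - 2)) + M * (-(2 * X * (b * (X - β))) + M * (b * (X - β)) ^ 2) := by ring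
      rw [e2]
      exact dvd_add hXW (dvd_mul_right _ _)
    have hα' : IsCoprime (M : ℤ) α := ⟨b, a, by linear_combination hab⟩
    exact hα'.dvd_of_dvd_mul_left hfin
  · apply IsCoprime.mul_left _ hXβ
    exact ⟨α, b, by linear_combination hab⟩

/-- glueing -/
lemma glueE (A B C n : ℤ) (m0 m1 m2 : ℤ) (h01 : IsCoprime m0 m1) (h02 : IsCoprime m0 m2) (h12 : IsCoprime m1 m2)
    (z0 W0 z1 W1 z2 W2 : ℤ) (h0 : m0 ∣ A * z0 ^ 2 + B * z0 + C + W0 ^ 2 - n)
    (h1 : m1 ∣ A * z1 ^ 2 + B * z1 + C + W1 ^ 2 - n) (h2 : m2 ∣ A * z2 ^ 2 + B * z2 + C + W2 ^ 2 - n) :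
    ∃ z W : ℤ, m0 * m1 * m2 ∣ A * z ^ 2 + B * z + C + W ^ 2 - n ∧ m0 ∣ z - z0 ∧ m0 ∣ W - W0 ∧ m1 ∣ z - z1 ∧
      m2 ∣ z - z2 := by
  obtain ⟨z, a0, a1, a2⟩ := crt3 m0 m1 m2 h01 h02 h12 z0 z1 z2
  obtain ⟨W, b0, b1, b2⟩ := crt3 m0 m1 m2 h01 h02 h12 W0 W1 W2
  have aux : ∀ m z' W' : ℤ, m ∣ z - z' → m ∣ W - W' → m ∣ A * z' ^ 2 + B * z' + C + W' ^ 2 - n →
      m ∣ A * z ^ 2 + B * z + C + W ^ 2 - n := by
    intro m z' W' g1 g2 g3
    have e : A * z ^ 2 + B * z + C + W ^ 2 - n = (z - z') * (A * (z + z') + B) + (W - W') * (W + W') +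
      (A * z' ^ 2 + B * z' + C + W' ^ 2 - n) := by ring
    rw [e]
    exact dvd_add (dvd_add (g1.mul_right _) (g2.mul_right _)) g3
  refine ⟨z, W, ?_, a0, b0, a1, a2⟩
  exact IsCoprime.mul_dvd (IsCoprime.mul_left h02 h12) (IsCoprime.mul_dvd h01 (aux _ _ _ a0 b0 h0) (aux _ _ _ a1 b1 h1))
    (aux _ _ _ a2 b2 h2)

/-- the 2-adic part, with an even root -/
lemma hens2E (a b e : ℤ) (ha : Odd a) (hb : Odd b) (he : 2 ∣ e) : ∀ m : ℕ, ∃ r : ℤ,
    (2 : ℤ) ^ (m + 1) ∣ a * r ^ 2 + b * r - e ∧ 2 ∣ r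
  | 0 => ⟨0, by simpa using he, by simp⟩
  | m + 1 => by
    obtain ⟨r, ⟨c, hc⟩, hr⟩ := hens2E a b e ha hb he m
    obtain ⟨b', hb'⟩ := hb
    obtain ⟨r', hr'⟩ := hr
    -- r ↦ r + 2^(m+1) c
    refine ⟨r + 2 ^ (m + 1) * c, ⟨c * (1 + b' + 2 * a * r') + a * 2 ^ m * c ^ 2, ?_⟩, ?_⟩
    · have e1 : a * (r + 2 ^ (m + 1) * c) ^ 2 + b * (r + 2 ^ (m + 1) * c) - e =
        (a * r ^ 2 + b * r - e) + 2 ^ (m + 1) * c * (2 * a * r + b) + a * (2 ^ (m + 1) * c) ^ 2 := by ring
      rw [e1, hc, hb', hr']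
      ring
    · rw [hr']
      exact dvd_add (dvd_mul_right _ _) (Dvd.dvd.mul_right (dvd_pow_self _ (by omega)) _)

/-- the 3-adic part -/
lemma hens3E (a b e : ℤ) (ha : 3 ∣ a) (hb : 3 ∣ b - 1) : ∀ m : ℕ, ∃ x : ℤ, (3 : ℤ) ^ m ∣ a * x ^ 2 + b * x - e
  | 0 => ⟨0, by simp⟩
  | m + 1 => by
    obtain ⟨x, c, hc⟩ := hens3E a b e ha hb m
    obtain ⟨a', ha'⟩ := ha
    obtain ⟨b', hb'⟩ := hb
    have hb2 : b = 3 * b' + 1 := by linear_combination hb'
    -- x ↦ x - 3^m c
    refine ⟨x - 3 ^ m * c, -(2 * a' * x * c) - b' * c + a' * 3 ^ m * c ^ 2, ?_⟩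
    have e1 : a * (x - 3 ^ m * c) ^ 2 + b * (x - 3 ^ m * c) - e =
      (a * x ^ 2 + b * x - e) - 3 ^ m * c * (2 * a * x + b) + a * (3 ^ m * c) ^ 2 := by ring
    rw [e1, hc, ha', hb2]
    ring

end Pool.Agent.N719.SP
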