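import Pool.Agent.N719.SP.Cls

/-!
# Local solutions for the Aurifeuillian pattern

If `T = 2^t` then `1 + 2 T + 2 T²` divides `4 T⁴ + 1 = 2^(2 (2 t + 1)) + 1`.
-/

set_option autoImplicit false
open Finset

namespace Pool.Agent.N719.SP
open Pool.Agent.W65.FS Pool.Agent.TH696.FA

lemma liftsq (l : ℕ) (hl : l.Prime) (h2 : IsCoprime 2 (l : ℤ)) (s X : ℤ) (hX : ¬ (l : ℤ) ∣ X)
    (h : (l : ℤ) ∣ X ^ 2 - s) : ∀ e : ℕ, ∃ Y : ℤ, (l : ℤ) ^ (e + 1) ∣ Y ^ 2 - s ∧ (l : ℤ) ∣ Y - X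
  | 0 => ⟨X, by simpa using h, by simp⟩
  | e + 1 => by
    obtain ⟨Y, ⟨c, hc⟩, hY⟩ := liftsq l hl h2 s X hX h e
    have hlpZ : Prime (l : ℤ) := Nat.prime_iff_prime_int.1 hl
    have hYl : ¬ (l : ℤ) ∣ Y := by
      intro h3
      apply hX
      have e1 : X = Y - (Y - X) := by ring
      rw [e1]; exact dvd_sub h3 hY
    have hYc : IsCoprime Y (l : ℤ) := ((Prime.coprime_iff_not_dvd hlpZ).2 hYl).symm
    obtain ⟨p, q, hpq⟩ := IsCoprime.mul_left h2 hYc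
    refine ⟨Y - l ^ (e + 1) * (c * p), ⟨c * q + l ^ e * (c * p) ^ 2, ?_⟩, ?_⟩
    · have e1 : (Y - l ^ (e + 1) * (c * p)) ^ 2 - s = (Y ^ 2 - s) - l ^ (e + 1) * (c * (p * (2 * Y))) +
        (l ^ (e + 1)) ^ 2 * (c * p) ^ 2 := by ring
      rw [e1, hc]
      have e2 : p * (2 * Y) = 1 - q * l := by linear_combination hpq
      rw [e2]
      ring
    · have e1 : Y - l ^ (e + 1) * (c * p) - X = (Y - X) - l * (l ^ e * (c * p)) := by ring
      rw [e1]; exact dvd_sub hY (dvd_mul_right _ _)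

/-- solutions of the conic with `2 X + r` prime to the modulus -/
lemma flipU (α r c : ℤ) (htab : ∀ l : ℕ, l.Prime → (l : ℤ) ∣ r → ¬ (l : ℤ) ∣ c →
      ∃ X W : ℤ, (l : ℤ) ∣ X ^ 2 + α * W ^ 2 - c ∧ ¬ (l : ℤ) ∣ X) (m : ℕ) :
    0 < m → IsCoprime 2 (m : ℤ) → (∃ X W : ℤ, (m : ℤ) ∣ X ^ 2 + α * W ^ 2 - c) →
    ∃ X W : ℤ, (m : ℤ) ∣ X ^ 2 + α * W ^ 2 - c ∧
      ∀ l : ℕ, l.Prime → l ∣ m → (l : ℤ) ∣ 2 * X + r → ((l : ℤ) ∣ r ∧ (l : ℤ) ∣ c) := by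
  induction m using Nat.recOnPosPrimePosCoprime with
  | prime_pow p n hp hn =>
    rintro - h2 ⟨X, W, hXW⟩
    have hpZ : Prime (p : ℤ) := Nat.prime_iff_prime_int.1 hp
    rw [Nat.cast_pow] at h2
    have h2p : IsCoprime 2 (p : ℤ) := (IsCoprime.pow_right_iff hn).1 h2
    have hlp : ∀ l : ℕ, l.Prime → l ∣ p ^ n → l = p := fun l hl hd =>
      (Nat.prime_dvd_prime_iff_eq hl hp).1 (hl.dvd_of_dvd_pow hd)
    by_cases hr : (p : ℤ) ∣ r
    · by_cases hc : (p : ℤ) ∣ c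
      · refine ⟨X, W, hXW, fun l hl hd _ => ?_⟩
        rw [hlp l hl hd]
        exact ⟨hr, hc⟩
      · obtain ⟨X0, W0, h3, h4⟩ := htab p hp hr hc
        obtain ⟨e, rfl⟩ := Nat.exists_eq_add_of_le hn
        obtain ⟨Y, hY1, hY2⟩ := liftsq p hp h2p (c - α * W0 ^ 2) X0 h4
          (by have e1 : X0 ^ 2 - (c - α * W0 ^ 2) = X0 ^ 2 + α * W0 ^ 2 - c := by ring
              rw [e1]; exact h3) e
        refine ⟨Y, W0, ?_, ?_⟩
        · rw [Nat.cast_pow]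
          have e1 : Y ^ 2 + α * W0 ^ 2 - c = Y ^ 2 - (c - α * W0 ^ 2) := by ring
          rw [e1, show 0 + 1 + e = e + 1 by ring]; exact hY1
        · intro l hl hd hlY
          exfalso
          rw [hlp l hl hd] at hlY
          have h5 : (p : ℤ) ∣ 2 * Y := by
            have e1 : 2 * Y = (2 * Y + r) - r := by ring
            rw [e1]; exact dvd_sub hlY hr
          have h6 : (p : ℤ) ∣ Y := h2p.symm.dvd_of_dvd_mul_left h5
          apply h4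
          have e1 : X0 = Y - (Y - X0) := by ring
          rw [e1]; exact dvd_sub h6 hY2
    · by_cases hX : (p : ℤ) ∣ 2 * X + r
      · refine ⟨-X, W, ?_, ?_⟩
        · have e1 : (-X) ^ 2 + α * W ^ 2 - c = X ^ 2 + α * W ^ 2 - c := by ring
          rw [e1]; exact hXW
        · intro l hl hd hlX
          exfalso
          rw [hlp l hl hd] at hlX
          have h5 : (p : ℤ) ∣ 2 * r := by
            have e1 : 2 * r = (2 * X + r) + (2 * -X + r) := by ring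
            rw [e1]; exact dvd_add hX hlX
          exact hr (h2p.symm.dvd_of_dvd_mul_left h5)
      · refine ⟨X, W, hXW, ?_⟩
        intro l hl hd hlX
        exfalso
        rw [hlp l hl hd] at hlX
        exact hX hlX
  | zero => intro h; exact absurd h (lt_irrefl 0)
  | one =>
    intro _ _ _
    refine ⟨0, 0, by simp, fun l hl hd _ => ?_⟩
    exact absurd (Nat.dvd_one.1 hd) hl.one_lt.ne'
  | coprime a b ha hb hab iha ihb =>
    rintro - h2 ⟨X, W, hXW⟩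
    rw [Nat.cast_mul] at h2 hXW
    obtain ⟨Xa, Wa, ha1, ha2⟩ := iha (by omega) h2.of_mul_right_left ⟨X, W, (dvd_mul_right _ _).trans hXW⟩
    obtain ⟨Xb, Wb, hb1, hb2⟩ := ihb (by omega) h2.of_mul_right_right ⟨X, W, (dvd_mul_left _ _).trans hXW⟩
    have habZ : IsCoprime (a : ℤ) (b : ℤ) := Nat.isCoprime_iff_coprime.2 hab
    obtain ⟨Y, hYa, hYb⟩ := crt2 _ _ habZ Xa Xb
    obtain ⟨V, hVa, hVb⟩ := crt2 _ _ habZ Wa Wb
    have aux : ∀ (k : ℤ) (X' W' : ℤ), k ∣ Y - X' → k ∣ V - W' → k ∣ X' ^ 2 + α * W' ^ 2 - c →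
        k ∣ Y ^ 2 + α * V ^ 2 - c := by
      intro k X' W' g1 g2 g3
      have e : Y ^ 2 + α * V ^ 2 - c = (Y - X') * (Y + X') + (V - W') * (α * (V + W')) +
        (X' ^ 2 + α * W' ^ 2 - c) := by ring
      rw [e]
      exact dvd_add (dvd_add (g1.mul_right _) (g2.mul_right _)) g3
    refine ⟨Y, V, ?_, ?_⟩
    · rw [Nat.cast_mul]
      exact IsCoprime.mul_dvd habZ (aux _ _ _ hYa hVa ha1) (aux _ _ _ hYb hVb hb1)
    · intro l hl hd hlY
      rcases hl.dvd_mul.1 hd with h3 | h3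
      · apply ha2 l hl h3
        have h4 : (l : ℤ) ∣ (a : ℤ) := Int.natCast_dvd_natCast.2 h3
        have e : 2 * Xa + r = (2 * Y + r) - 2 * (Y - Xa) := by ring
        rw [e]
        exact dvd_sub hlY ((h4.trans hYa).mul_left _)
      · apply hb2 l hl h3
        have h4 : (l : ℤ) ∣ (b : ℤ) := Int.natCast_dvd_natCast.2 h3
        have e : 2 * Xb + r = (2 * Y + r) - 2 * (Y - Xb) := by ring
        rw [e]
        exact dvd_sub hlY ((h4.trans hYb).mul_left _)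

/-- the part of the modulus that is coprime to 6 -/
lemma MpartU (α β C n : ℤ) (hC : α * C = β ^ 2 + 8) (M : ℕ) (hM : 0 < M) (hα : IsCoprime α (M : ℤ))
    (h2 : IsCoprime 2 (M : ℤ))
    (hsq : ∀ l : ℕ, l.Prime → l ^ 2 ∣ M → (l : ℤ) ∣ α * n - 8 → IsSquare (((-α : ℤ)) : ZMod l))
    (htab : ∀ l : ℕ, l.Prime → (l : ℤ) ∣ α - 2 * β → ¬ (l : ℤ) ∣ α * n - 8 →
      ∃ X W : ℤ, (l : ℤ) ∣ X ^ 2 + α * W ^ 2 - (α * n - 8) ∧ ¬ (l : ℤ) ∣ X) :
    ∃ z W : ℤ, (M : ℤ) ∣ α * z ^ 2 + 2 * β * z + C + W ^ 2 - n ∧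
      ∀ l : ℕ, l.Prime → l ∣ M → (l : ℤ) ∣ 2 * z + 1 → ((l : ℤ) ∣ α - 2 * β ∧ (l : ℤ) ∣ α * n - 8) := by
  set F : Finset ℕ := M.primeFactors.filter (fun l : ℕ => (l : ℤ) ∣ α * n - 8 ∧ ¬ l ^ 2 ∣ M) with hF
  set M2 : ℕ := ∏ l ∈ F, l with hM2
  have hM2d : M2 ∣ M := by
    refine (Finset.prod_dvd_prod_of_subset _ _ _ (Finset.filter_subset _ _)).trans (Nat.prod_primeFactors_dvd M)
  obtain ⟨M1, hM1⟩ := hM2d
  have hM10 : 0 < M1 := by
    rcases Nat.eq_zero_or_pos M1 with h | h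
    · rw [h] at hM1; omega
    · exact h
  have hMZ : (M : ℤ) = M2 * M1 := by exact_mod_cast hM1
  have hmem : ∀ l : ℕ, l.Prime → (l ∣ M2 ↔ l ∣ M ∧ (l : ℤ) ∣ α * n - 8 ∧ ¬ l ^ 2 ∣ M) := by
    intro l hl
    rw [hM2, Prime.dvd_finsetProd_iff hl.prime]
    constructor
    · rintro ⟨p, hp, hlp⟩
      rw [hF, Finset.mem_filter, Nat.mem_primeFactors] at hp
      have := (Nat.prime_dvd_prime_iff_eq hl hp.1.1).1 hlp
      subst this
      exact ⟨hp.1.2.1, hp.2.1, hp.2.2⟩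
    · rintro ⟨g1, g2, g3⟩
      exact ⟨l, by rw [hF, Finset.mem_filter, Nat.mem_primeFactors]; exact ⟨⟨hl, g1, hM.ne'⟩, g2, g3⟩, dvd_rfl⟩
  have c12 : Nat.Coprime M2 M1 := by
    apply Nat.coprime_of_dvd
    intro l hl h3 h4
    have h5 := (hmem l hl).1 h3
    apply h5.2.2
    rw [hM1, pow_two]
    exact Nat.mul_dvd_mul h3 h4
  have hM2div : (M2 : ℤ) ∣ α * n - 8 := by
    have h5 : (M2 : ℤ) = ∏ l ∈ F, (l : ℤ) := by
      rw [hM2]; push_cast; rfl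
    rw [h5]
    apply Finset.prod_dvd_of_coprime
    · intro a ha b hb hab
      have ha' := (Nat.mem_primeFactors.1 (Finset.mem_filter.1 ha).1).1
      have hb' := (Nat.mem_primeFactors.1 (Finset.mem_filter.1 hb).1).1
      exact Nat.isCoprime_iff_coprime.2 ((Nat.coprime_primes ha' hb').2 hab)
    · intro a ha
      exact (Finset.mem_filter.1 ha).2.1
  have h21 : IsCoprime 2 (M1 : ℤ) := by
    rw [hMZ] at h2
    exact h2.of_mul_right_right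
  have cα1 : IsCoprime (2 * α) (M1 : ℤ) := by
    rw [hMZ] at hα
    exact IsCoprime.mul_left h21 hα.of_mul_right_right
  obtain ⟨X0, W0, h1, -⟩ := binaryE α M1 hM10 cα1 (α * n - 8) (by
    intro l hl hlM1 hlt
    apply hsq l hl _ hlt
    by_contra h6
    have h7 : l ∣ M2 := (hmem l hl).2 ⟨by rw [hM1]; exact hlM1.mul_left _, hlt, h6⟩
    have h8 := Nat.dvd_gcd h7 hlM1
    rw [c12] at h8
    exact hl.one_lt.ne' (Nat.dvd_one.1 h8))
  obtain ⟨X1, W1, hX1, hX1c⟩ := flipU α (α - 2 * β) (α * n - 8) htab M1 hM10 h21 ⟨X0, W0, h1⟩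
  have c12Z : IsCoprime (M2 : ℤ) (M1 : ℤ) := Nat.isCoprime_iff_coprime.2 c12
  obtain ⟨X, hX2, hX1'⟩ := crt2 _ _ c12Z 0 X1
  obtain ⟨W, hW2, hW1⟩ := crt2 _ _ c12Z 0 W1
  rw [sub_zero] at hX2 hW2
  have hXW : (M : ℤ) ∣ X ^ 2 + α * W ^ 2 - (α * n - 8) := by
    rw [hMZ]
    apply IsCoprime.mul_dvd c12Z
    · have e : X ^ 2 + α * W ^ 2 - (α * n - 8) = X * X + W * (α * W) - (α * n - 8) := by ring
      rw [e]
      exact dvd_sub (dvd_add (hX2.mul_right _) (hW2.mul_right _)) hM2div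
    · have e : X ^ 2 + α * W ^ 2 - (α * n - 8) = (X - X1) * (X + X1) + (W - W1) * (α * (W + W1)) +
        (X1 ^ 2 + α * W1 ^ 2 - (α * n - 8)) := by ring
      rw [e]
      exact dvd_add (dvd_add (hX1'.mul_right _) (hW1.mul_right _)) hX1
  have hXr : ∀ l : ℕ, l.Prime → l ∣ M → (l : ℤ) ∣ 2 * X + (α - 2 * β) →
      ((l : ℤ) ∣ α - 2 * β ∧ (l : ℤ) ∣ α * n - 8) := by
    intro l hl hlM hlX
    by_cases h3 : l ∣ M2
    · have h4 : (l : ℤ) ∣ (M2 : ℤ) := Int.natCast_dvd_natCast.2 h3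
      refine ⟨?_, h4.trans hM2div⟩
      have e : α - 2 * β = (2 * X + (α - 2 * β)) - 2 * X := by ring
      rw [e]
      exact dvd_sub hlX ((h4.trans hX2).mul_left _)
    · have h4 : l ∣ M1 := by
        rw [hM1] at hlM
        exact (hl.dvd_mul.1 hlM).resolve_left h3
      have h5 : (l : ℤ) ∣ (M1 : ℤ) := Int.natCast_dvd_natCast.2 h4
      apply hX1c l hl h4
      have e : 2 * X1 + (α - 2 * β) = (2 * X + (α - 2 * β)) - 2 * (X - X1) := by ring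
      rw [e]
      exact dvd_sub hlX ((h5.trans hX1').mul_left _)
  have hα0 := hα
  obtain ⟨a, b, hab⟩ := hα
  have e0 : a * α = 1 - b * M := by linear_combination hab
  have e1 : α * (a * (X - β)) + β = X - M * (b * (X - β)) := by
    linear_combination (X - β) * e0
  refine ⟨a * (X - β), W, ?_, ?_⟩
  · have hfin : (M : ℤ) ∣ α * (α * (a * (X - β)) ^ 2 + 2 * β * (a * (X - β)) + C + W ^ 2 - n) := by
      have e : α * (α * (a * (X - β)) ^ 2 + 2 * β * (a * (X - β)) + C + W ^ 2 - n) =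
          (α * (a * (X - β)) + β) ^ 2 + α * W ^ 2 - (α * n - 8) := by
        linear_combination hC
      rw [e, e1]
      have e2 : (X - M * (b * (X - β))) ^ 2 + α * W ^ 2 - (α * n - 8) =
        (X ^ 2 + α * W ^ 2 - (α * n - 8)) + M * (-(2 * X * (b * (X - β))) + M * (b * (X - β)) ^ 2) := by ring
      rw [e2]
      exact dvd_add hXW (dvd_mul_right _ _)
    have hα' : IsCoprime (M : ℤ) α := ⟨b, a, by linear_combination hab⟩
    exact hα'.dvd_of_dvd_mul_left hfin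
  · intro l hl hlM hd
    apply hXr l hl hlM
    have h3 : (l : ℤ) ∣ (M : ℤ) := Int.natCast_dvd_natCast.2 hlM
    have e : 2 * X + (α - 2 * β) = α * (2 * (a * (X - β)) + 1) + M * (2 * (b * (X - β))) := by
      linear_combination (-2 : ℤ) * e1
    rw [e]
    exact dvd_add (hd.mul_left _) (h3.mul_right _)

/-- the 2-adic part -/
lemma hens2U (a b e : ℤ) (ha : 2 ∣ a) (hb : 2 ∣ b - 1) : ∀ m : ℕ, ∃ x : ℤ, (2 : ℤ) ^ m ∣ a * x ^ 2 + b * x - e
  | 0 => ⟨0, by simp⟩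
  | m + 1 => by
    obtain ⟨x, c, hc⟩ := hens2U a b e ha hb m
    obtain ⟨a', ha'⟩ := ha
    obtain ⟨b', hb'⟩ := hb
    have hb2 : b = 2 * b' + 1 := by linear_combination hb'
    refine ⟨x - 2 ^ m * c, -(2 * a' * x * c) - b' * c + a' * 2 ^ m * c ^ 2, ?_⟩
    have e1 : a * (x - 2 ^ m * c) ^ 2 + b * (x - 2 ^ m * c) - e =
      (a * x ^ 2 + b * x - e) - 2 ^ m * c * (2 * a * x + b) + a * (2 ^ m * c) ^ 2 := by ring
    rw [e1, hc, ha', hb2]
    ring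

lemma tab7 (c : ℤ) (l : ℕ) (hl : l.Prime) (h7 : (l : ℤ) ∣ 9 - 2 * 1) (hc : ¬ (l : ℤ) ∣ c) :
    ∃ X W : ℤ, (l : ℤ) ∣ X ^ 2 + 9 * W ^ 2 - c ∧ ¬ (l : ℤ) ∣ X := by
  have h : l = 7 := by
    have h1 : l ∣ 7 := by
      have h2 : (l : ℤ) ∣ ((7 : ℕ) : ℤ) := by
        have e : ((7 : ℕ) : ℤ) = 9 - 2 * 1 := by norm_num
        rw [e]; exact h7
      exact Int.natCast_dvd_natCast.1 h2
    exact (Nat.prime_dvd_prime_iff_eq hl (by norm_num)).1 h1
  subst h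
  push_cast at hc ⊢
  have h0 : c % 7 ≠ 0 := by omega
  have h1 : c % 7 = 1 ∨ c % 7 = 2 ∨ c % 7 = 3 ∨ c % 7 = 4 ∨ c % 7 = 5 ∨ c % 7 = 6 := by omega
  rcases h1 with h | h | h | h | h | h
  · exact ⟨1, 0, by omega, by omega⟩
  · exact ⟨3, 0, by omega, by omega⟩
  · exact ⟨1, 1, by omega, by omega⟩
  · exact ⟨2, 0, by omega, by omega⟩
  · exact ⟨1, 3, by omega, by omega⟩
  · exact ⟨2, 1, by omega, by omega⟩

lemma tab5 (c : ℤ) (l : ℕ) (hl : l.Prime) (h5 : (l : ℤ) ∣ 3 - 2 * -1) (hc : ¬ (l : ℤ) ∣ c) :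
    ∃ X W : ℤ, (l : ℤ) ∣ X ^ 2 + 3 * W ^ 2 - c ∧ ¬ (l : ℤ) ∣ X := by
  have h : l = 5 := by
    have h1 : l ∣ 5 := by
      have h2 : (l : ℤ) ∣ ((5 : ℕ) : ℤ) := by
        have e : ((5 : ℕ) : ℤ) = 3 - 2 * -1 := by norm_num
        rw [e]; exact h5
      exact Int.natCast_dvd_natCast.1 h2
    exact (Nat.prime_dvd_prime_iff_eq hl (by norm_num)).1 h1
  subst h
  push_cast at hc ⊢
  have h0 : c % 5 ≠ 0 := by omega
  have h1 : c % 5 = 1 ∨ c % 5 = 2 ∨ c % 5 = 3 ∨ c % 5 = 4 := by omega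
  rcases h1 with h | h | h | h
  · exact ⟨1, 0, by omega, by omega⟩
  · exact ⟨2, 1, by omega, by omega⟩
  · exact ⟨1, 2, by omega, by omega⟩
  · exact ⟨2, 0, by omega, by omega⟩

end Pool.Agent.N719.SP
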