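import Pool.Agent.N719.SP.Num

/-!
# The exceptional primes
-/

set_option autoImplicit false
open Finset

namespace Pool.Agent.N719.SP
open Pool.Agent.W65.FS Pool.Agent.TH696.FA Pool.Agent.R154.FT Pool.Agent.R154.FV Pool.Agent.Y440.LC

/-- the exceptional numbers -/
def ExcE (n o : ℕ) : Prop := ∃ l : ℕ, l.Prime ∧ 5 ≤ l ∧ l ^ 2 ∣ o ∧ Bad n l

theorem baseE (n K : ℕ) (hno : Odd n) (hK : 0 < K)
    (hsq : ∀ l : ℕ, l.Prime → 5 ≤ l → l ^ 2 ∣ K → ¬ Bad n l) :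
    ∃ (D : ℕ) (u : Fin 4 → ℤ), BaseE n K D
      (fun q => ¬ RegA n ∧ ¬ RegB n ∧ orderOf (2 : ZMod q) = 3 ^ (J n + 1)) u := by
  obtain ⟨v, L, hL, hKL⟩ := Nat.exists_eq_two_pow_mul_odd hK.ne'
  have hL0 : L ≠ 0 := by rintro rfl; simp at hL
  obtain ⟨w, M, hM3, hLM⟩ := Nat.exists_eq_pow_mul_and_not_dvd hL0 3 (by norm_num)
  have hM0 : 0 < M := by
    rcases Nat.eq_zero_or_pos M with h0 | h0
    · rw [h0] at hM3; simp at hM3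
    · exact h0
  have hM2 : ¬ 2 ∣ M := by
    intro h2
    rw [hLM] at hL
    have h2' : 2 ∣ 3 ^ w * M := h2.mul_left _
    exact (Nat.not_even_iff_odd.2 hL) (even_iff_two_dvd.2 h2')
  have hM6 : Nat.Coprime 6 M := by
    have e : (6 : ℕ) = 2 * 3 := by norm_num
    rw [e]
    exact Nat.Coprime.mul_left ((Nat.Prime.coprime_iff_not_dvd Nat.prime_two).2 hM2)
      ((Nat.Prime.coprime_iff_not_dvd Nat.prime_three).2 hM3)
  have hKM : K = 2 ^ v * 3 ^ w * M := by rw [hKL, hLM]; ring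
  have hsqM : ∀ l : ℕ, l.Prime → l ^ 2 ∣ M → ¬ Bad n l := by
    intro l hl hlM
    have hlM' : l ∣ M := (dvd_pow_self l two_ne_zero).trans hlM
    apply hsq l hl
    · by_contra hlt
      push Not at hlt
      have h2 := hl.two_le
      have h5 : l = 2 ∨ l = 3 ∨ l = 4 := by omega
      rcases h5 with rfl | rfl | rfl
      · exact hM2 hlM'
      · exact hM3 hlM'
      · exact absurd hl (by norm_num)
    · rw [hKM]; exact hlM.mul_left _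
  have hDK : 2 ^ (v + 2) * 3 ^ (w + 1) * M = 12 * K := by rw [hKM]; ring
  have hD0 : 0 < 2 ^ (v + 2) * 3 ^ (w + 1) * M := by rw [hDK]; omega
  have hD4 : 4 ∣ 2 ^ (v + 2) * 3 ^ (w + 1) * M := by rw [hDK]; exact Dvd.dvd.mul_right (by norm_num) _
  have hKD : K ∣ 2 ^ (v + 2) * 3 ^ (w + 1) * M := by rw [hDK]; exact dvd_mul_left _ _
  by_cases hR : RegB n
  · obtain ⟨u, hu, hP⟩ := localP n v w M hR hM0 hM6 hsqM
    refine ⟨2 ^ (v + 2) * 3 ^ (w + 1) * M, u, hD0, hD4, hKD, hDK, hu, hP.2.1, ?_⟩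
    intro x y z hx hy hz q hq hqN hqK
    exfalso
    have h := coprime2 v w M hM0 hM6 u hP x y z hx hy hz
    rw [← hKM] at h
    exact hq.one_lt.ne' (Nat.dvd_one.1 (by rw [← h]; exact Nat.dvd_gcd hqN hqK))
  · obtain ⟨u, hu, hP⟩ := localE n v w M hno hM0 hM6 hsqM
    refine ⟨2 ^ (v + 2) * 3 ^ (w + 1) * M, u, hD0, hD4, hKD, hDK, hu, hP.e3, ?_⟩
    intro x y z hx hy hz q hq hqN hqK
    rw [hKM] at hqK
    obtain ⟨g1, g2, g3⟩ := coprimeE n v w M hM0 hM6 u hP x y z hx hy hz q hq hqN hqK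
    exact ⟨g1, g2, hR, g3⟩

lemma dvd_of_order (B : ℕ → Prop) [DecidablePred B] (K : ℕ) (hK : 0 < K) (q : ℕ) (hq : q.Prime) (hq2 : q ≠ 2)
    (hqK : q - 1 ∣ K) (hB : B (orderOf (2 : ZMod q))) : q ∣ 2 * (2 ^ KD B K - 1) := by
  have : Fact q.Prime := ⟨hq⟩
  apply Dvd.dvd.mul_left
  have h20 : (2 : ZMod q) ≠ 0 := by
    intro h
    have h3 : ((2 : ℕ) : ZMod q) = 0 := by exact_mod_cast h
    rw [ZMod.natCast_eq_zero_iff] at h3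
    exact hq2 ((Nat.prime_dvd_prime_iff_eq hq Nat.prime_two).1 h3)
  have hdvd : orderOf (2 : ZMod q) ∣ q - 1 := ZMod.orderOf_dvd_card_sub_one h20
  have hK' : orderOf (2 : ZMod q) ∣ KD B K := by
    unfold KD
    exact Finset.dvd_lcm (f := id) (Finset.mem_filter.2 ⟨Nat.mem_divisors.2 ⟨hdvd.trans hqK, hK.ne'⟩, hB⟩)
  have h1 : (2 : ZMod q) ^ KD B K = 1 := orderOf_dvd_iff_pow_eq_one.1 hK'
  rw [← ZMod.natCast_eq_zero_iff, Nat.cast_sub Nat.one_le_two_pow]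
  push_cast
  rw [h1]; ring

lemma hsqE (n : ℕ) (B : ℕ → Prop) [DecidablePred B] (K : ℕ) (hB : ∀ b, B b → ¬ ExcE n b) :
    ∀ l : ℕ, l.Prime → 5 ≤ l → l ^ 2 ∣ KD B K → ¬ Bad n l := by
  intro l hl hl5 hlK hd
  refine prime_pow_dvd_lcm l 2 hl ((Nat.divisors K).filter B) ?_ ?_ (by norm_num) hlK
  · intro b hb
    exact (Nat.pos_of_mem_divisors (Finset.mem_filter.1 hb).1).ne'
  · intro b hb hlb
    exact hB b (Finset.mem_filter.1 hb).2 ⟨l, hl, hl5, hlb, hd⟩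

/-- all odd `n` -/
theorem mainA (ε : ℝ) (hε : 0 < ε) : ∃ c : ℝ, 0 < c ∧ ∃ n0 : ℕ, ∀ n : ℕ, n0 ≤ n → Odd n →
    ∃ S : Finset (ℕ × ℕ × ℕ × ℕ), (n : ℝ) ^ (1 - ε) ≤ (S.card : ℝ) ∧
      ∀ x y z w : ℕ, (x, y, z, w) ∈ S → n = x ^ 2 + y ^ 2 + z ^ 2 + 4 * w ^ 2 ∧
        ∀ q : ℕ, q.Prime → q ∣ 2 ^ x + 2 ^ y + 2 ^ z + 1 →
          (q : ℝ) ≤ c * (Real.log n * Real.log (Real.log n) / Real.log (Real.log (Real.log n))) →
          q ≠ 2 ∧ (ExcE n (orderOf (2 : ZMod q)) ∨ (¬ RegA n ∧ ¬ RegB n ∧ orderOf (2 : ZMod q) = 3 ^ (J n + 1))) := by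
  classical
  obtain ⟨δ, hδ, n1, horth⟩ := orth_count ε hε
  obtain ⟨n2, hn2⟩ := large_rp 12 (δ / 2) (by positivity)
  obtain ⟨c, hc, n4, hm⟩ := modulus (δ / 2) (by positivity)
  refine ⟨c, hc, n1 + n2 + n4 + 1, fun n hn hno => ?_⟩
  have hn0 : (0 : ℝ) < n := by exact_mod_cast hno.pos
  obtain ⟨K, hK0, hKn0, hKd⟩ := hm n (by omega)
  obtain ⟨D, u, hb⟩ := baseE n (KD (fun b => ¬ ExcE n b) K) hno (KD_pos _ _ hK0) (hsqE n _ K (fun b hb => hb))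
  have hKle : KD (fun b => ¬ ExcE n b) K ≤ K := Nat.le_of_dvd hK0 (KD_dvd _ K)
  have hDn : (D : ℝ) ≤ (n : ℝ) ^ δ := by
    have h1 : (D : ℝ) = 12 * ((KD (fun b => ¬ ExcE n b) K : ℕ) : ℝ) := by
      rw [hb.D12]; push_cast; ring
    have h2 : ((KD (fun b => ¬ ExcE n b) K : ℕ) : ℝ) ≤ (K : ℝ) := by exact_mod_cast hKle
    have h3 := hn2 n (by omega)
    rw [h1]
    calc 12 * ((KD (fun b => ¬ ExcE n b) K : ℕ) : ℝ) ≤ (n : ℝ) ^ (δ / 2) * (n : ℝ) ^ (δ / 2) := by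
          apply mul_le_mul h3 (h2.trans hKn0) (Nat.cast_nonneg _) (by positivity)
      _ = (n : ℝ) ^ δ := by rw [← Real.rpow_add hn0]; congr 1; ring
  have hcount := horth n D (by omega) hno hb.D0 hb.D4 hDn u hb.good
  have hD2 : (2 : ℤ) ∣ (D : ℤ) := by
    have h4 : ((4 : ℕ) : ℤ) ∣ (D : ℤ) := Int.natCast_dvd_natCast.2 hb.D4
    exact dvd_trans (by norm_num) h4
  obtain ⟨T, hT1, hT2⟩ := quads3 n K D 0 0 u u hD2 hb.u3 (orth n D u) (fun W hW => ⟨hW, fun l hl => by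
    have := (mem_win 0 0 l).1 hl
    omega⟩)
  refine ⟨T, by rw [hT1]; exact hcount, ?_⟩
  intro x y z w hxyzw
  obtain ⟨g1, g2, g3, g4, -⟩ := hT2 x y z w hxyzw
  refine ⟨g1, fun q hq hqN hqc => ?_⟩
  have hcop := hb.cop x y z g2 g3 g4 q hq hqN
  have hq2 : q ≠ 2 := by
    intro h
    exact (hcop (by rw [h]; exact dvd_mul_right _ _)).1 h
  refine ⟨hq2, ?_⟩
  by_cases hE : ExcE n (orderOf (2 : ZMod q))
  · exact Or.inl hE
  · exact Or.inr (hcop (dvd_of_order (fun b => ¬ ExcE n b) K hK0 q hq hq2 (hKd q hq hqc) hE)).2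

/-- the range `(log n)²` -/
theorem mainB (ε : ℝ) (hε : 0 < ε) : ∃ c : ℝ, 0 < c ∧ ∃ n0 : ℕ, ∀ n : ℕ, n0 ≤ n → Odd n →
    (∀ l : ℕ, l.Prime → c * Real.log n < l → (l : ℝ) ≤ (Real.log n) ^ 2 → ¬ l ^ 2 ∣ n) →
    ∃ S : Finset (ℕ × ℕ × ℕ × ℕ), (n : ℝ) ^ (1 - ε) ≤ (S.card : ℝ) ∧
      ∀ x y z w : ℕ, (x, y, z, w) ∈ S → n = x ^ 2 + y ^ 2 + z ^ 2 + 4 * w ^ 2 ∧
        ∀ q : ℕ, q.Prime → q ∣ 2 ^ x + 2 ^ y + 2 ^ z + 1 → (q : ℝ) ≤ c * (Real.log n) ^ 2 →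
          q ≠ 2 ∧ (ExcE n (orderOf (2 : ZMod q)) ∨ (¬ RegA n ∧ ¬ RegB n ∧ orderOf (2 : ZMod q) = 3 ^ (J n + 1))) := by
  classical
  obtain ⟨κ, hκ0, hκ1, n0, hmain⟩ := numE ε hε
  have hcκ : (κ / 2) ^ 2 / 200000 ≤ κ := by
    rw [div_le_iff₀ (by norm_num)]
    nlinarith
  refine ⟨(κ / 2) ^ 2 / 200000, by positivity, n0 + 1, ?_⟩
  intro n hn hno hsqf
  have hnr : (1 : ℝ) ≤ n := by exact_mod_cast hno.pos
  have hlog0 : 0 ≤ Real.log n := Real.log_nonneg hnr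
  obtain ⟨Y, hY⟩ : ∃ Y : ℕ, Y = ⌊κ * Real.log n⌋₊ := ⟨_, rfl⟩
  obtain ⟨Z, hZ⟩ : ∃ Z : ℕ, Z = Y ^ 2 / 200000 := ⟨_, rfl⟩
  obtain ⟨hY12, hZY, hZlt, hT⟩ := hmain n (by omega) hno Y Z hY hZ
  have hYle : (Y : ℝ) ≤ κ * Real.log n := by
    rw [hY]
    exact Nat.floor_le (by positivity)
  have hYlt : κ * Real.log n < Y + 1 := by
    rw [hY]
    exact Nat.lt_floor_add_one _
  have hY1r : (1 : ℝ) ≤ Y := by exact_mod_cast (by omega : 1 ≤ Y)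
  have hYhalf : κ / 2 * Real.log n ≤ Y := by linarith
  have hM : Mod ((Nat.lcmUpto Y) ^ 3) Y Z := mod_inst Y Z (by omega) hZY
  obtain ⟨Λ, hΛ⟩ : ∃ Λ : ℕ, Λ = (Nat.lcmUpto Y) ^ 3 := ⟨_, rfl⟩
  rw [← hΛ] at hM
  rw [← hΛ] at hT
  have hΛ0 : 0 < Λ := hM.pos
  have hln : ∀ l : ℕ, l.Prime → Y < l → l ≤ Z → ¬ l ^ 2 ∣ n := by
    intro l hl hlY hlZ
    apply hsqf l hl
    · have h1 : ((Y : ℝ) + 1) ≤ l := by exact_mod_cast hlY
      have h2 : (κ / 2) ^ 2 / 200000 * Real.log n ≤ κ * Real.log n := by gcongr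
      linarith
    · have h1 : (l : ℝ) ≤ (Y : ℝ) ^ 2 := by
        have : l ≤ Y ^ 2 := by omega
        exact_mod_cast this
      have h2 : (Y : ℝ) ≤ Real.log n := by
        calc (Y : ℝ) ≤ κ * Real.log n := hYle
          _ ≤ 1 * Real.log n := by gcongr
          _ = Real.log n := one_mul _
      calc (l : ℝ) ≤ (Y : ℝ) ^ 2 := h1
        _ ≤ (Real.log n) ^ 2 := by gcongr
  have hqZ : ∀ q : ℕ, (q : ℝ) ≤ (κ / 2) ^ 2 / 200000 * (Real.log n) ^ 2 → q ≤ Z := by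
    intro q hq
    have h3 : (Y : ℝ) ^ 2 < 200000 * ((Z : ℝ) + 1) := by exact_mod_cast hZlt
    have h4 : (q : ℝ) < ((Z + 1 : ℕ) : ℝ) := by
      calc (q : ℝ) ≤ (κ / 2) ^ 2 / 200000 * (Real.log n) ^ 2 := hq
        _ = (κ / 2 * Real.log n) ^ 2 / 200000 := by ring
        _ ≤ (Y : ℝ) ^ 2 / 200000 := by gcongr
        _ < (Z : ℝ) + 1 := by
            rw [div_lt_iff₀ (by norm_num)]
            linarith
        _ = ((Z + 1 : ℕ) : ℝ) := by push_cast; ring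
    have h5 : q < Z + 1 := by exact_mod_cast h4
    omega
  have hBK : ∀ (B : ℕ → Prop) [DecidablePred B], ∀ d : ℕ, 0 < d → d ≤ Z →
      (∀ p : ℕ, p.Prime → p ∣ d → p ≤ Y) → B d → d ∣ KD B Λ := by
    intro B _ d hd hdZ hp hBd
    unfold KD
    exact Finset.dvd_lcm (f := id) (Finset.mem_filter.2 ⟨Nat.mem_divisors.2 ⟨hM.smooth d hd hdZ hp, hΛ0.ne'⟩, hBd⟩)
  have hexc : ∀ d k, ¬ ExcE n d → k ∣ d → ¬ ExcE n k := by
    rintro d k h1 h2 ⟨l, hl, hl5, hlk, hln'⟩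
    exact h1 ⟨l, hl, hl5, hlk.trans h2, hln'⟩
  obtain ⟨D, u, hb⟩ := baseE n (KD (fun b => ¬ ExcE n b) Λ) hno (KD_pos _ _ hΛ0) (hsqE n _ Λ (fun b hb => hb))
  obtain ⟨T, hT1, hT2⟩ := hT _ D _ u hb (KD_dvd _ _) hln (fun b => ¬ ExcE n b) hexc (hBK _)
  refine ⟨T, hT1, ?_⟩
  intro x y z w hxyzw
  obtain ⟨g1, g2⟩ := hT2 x y z w hxyzw
  refine ⟨g1, fun q hq hqN hqc => ?_⟩
  obtain ⟨k1, k2⟩ := g2 q hq hqN (hqZ q hqc)
  refine ⟨k1, ?_⟩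
  by_cases hE : ExcE n (orderOf (2 : ZMod q))
  · exact Or.inl hE
  · exact Or.inr (k2 hE)

/-! ### explicit exceptional primes -/

lemma sq_neg_three (l : ℕ) [Fact l.Prime] (h : l % 3 = 1) : IsSquare (((-3 : ℤ)) : ZMod l) := by
  have hcard : 3 ∣ Fintype.card (ZMod l)ˣ := by
    rw [ZMod.card_units]
    omega
  obtain ⟨g, hg⟩ := exists_prime_orderOf_dvd_card 3 hcard
  have h3 : ((g : (ZMod l)ˣ) : ZMod l) ^ 3 = 1 := by
    rw [← Units.val_pow_eq_pow_val, ← hg, pow_orderOf_eq_one, Units.val_one]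
  have h1 : ((g : (ZMod l)ˣ) : ZMod l) ≠ 1 := by
    intro h4
    have : g = 1 := Units.ext (by rw [h4, Units.val_one])
    rw [this, orderOf_one] at hg
    norm_num at hg
  have h5 : ((g : (ZMod l)ˣ) : ZMod l) ^ 2 + g + 1 = 0 := by
    have h6 : (((g : (ZMod l)ˣ) : ZMod l) - 1) * (((g : (ZMod l)ˣ) : ZMod l) ^ 2 + g + 1) = 0 := by
      linear_combination h3
    rcases mul_eq_zero.1 h6 with h7 | h7
    · exact absurd (sub_eq_zero.1 h7) h1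
    · exact h7
  refine ⟨2 * g + 1, ?_⟩
  push_cast
  linear_combination -4 * h5

lemma sq_neg_nine (l : ℕ) [Fact l.Prime] (h : l % 4 ≠ 3) : IsSquare (((-9 : ℤ)) : ZMod l) := by
  obtain ⟨s, hs⟩ := ZMod.exists_sq_eq_neg_one_iff.2 h
  refine ⟨3 * s, ?_⟩
  push_cast
  linear_combination 9 * hs

lemma bad_imp (n l : ℕ) (hl : l.Prime) (hl5 : 5 ≤ l) (h : Bad n l) :
    (n % 4 = 1 ∧ l % 3 = 2 ∧ (l : ℤ) ∣ 3 * n - 2) ∨ (n % 4 = 3 ∧ l % 4 = 3 ∧ (l : ℤ) ∣ 9 * n - 2) := by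
  have : Fact l.Prime := ⟨hl⟩
  rcases h with ⟨h1, h2, h3⟩ | ⟨h1, h2, h3⟩
  · refine Or.inl ⟨h1, ?_, h2⟩
    by_contra h4
    by_cases h5 : l % 3 = 1
    · exact h3 (sq_neg_three l h5)
    · have h6 : 3 ∣ l := by omega
      have := (Nat.prime_dvd_prime_iff_eq Nat.prime_three hl).1 h6
      omega
  · refine Or.inr ⟨h1, ?_, h2⟩
    by_contra h4
    exact h3 (sq_neg_nine l h4)

lemma dvd_of_ord (q k : ℕ) [Fact q.Prime] (h : orderOf (2 : ZMod q) = k) : q ∣ 2 ^ k - 1 := by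
  have h1 : (2 : ZMod q) ^ k = 1 := by rw [← h]; exact pow_orderOf_eq_one _
  rw [← ZMod.natCast_eq_zero_iff, Nat.cast_sub Nat.one_le_two_pow]
  push_cast
  rw [h1]; ring

lemma ord3 (q : ℕ) (hq : q.Prime) (h : orderOf (2 : ZMod q) = 3) : q = 7 := by
  have : Fact q.Prime := ⟨hq⟩
  have h1 := dvd_of_ord q 3 h
  norm_num at h1
  exact (Nat.prime_dvd_prime_iff_eq hq (by norm_num)).1 h1

lemma ord9 (q : ℕ) (hq : q.Prime) (h : orderOf (2 : ZMod q) = 9) : q = 73 := by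
  have : Fact q.Prime := ⟨hq⟩
  have h1 := dvd_of_ord q 9 h
  have e : 2 ^ 9 - 1 = 7 * 73 := by norm_num
  rw [e] at h1
  rcases hq.dvd_mul.1 h1 with h2 | h2
  · have h7 := (Nat.prime_dvd_prime_iff_eq hq (by norm_num)).1 h2
    subst h7
    have h3 : orderOf (2 : ZMod 7) ∣ 3 := orderOf_dvd_of_pow_eq_one seven_pow
    rw [h] at h3
    norm_num at h3
  · exact (Nat.prime_dvd_prime_iff_eq hq (by norm_num)).1 h2

lemma ord27 (q : ℕ) (hq : q.Prime) (h : orderOf (2 : ZMod q) = 27) : q = 262657 := by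
  have : Fact q.Prime := ⟨hq⟩
  have h1 := dvd_of_ord q 27 h
  have e : 2 ^ 27 - 1 = 7 * 73 * 262657 := by norm_num
  rw [e] at h1
  rcases hq.dvd_mul.1 h1 with h2 | h2
  · exfalso
    have h3 : orderOf (2 : ZMod q) ∣ 9 := by
      apply orderOf_dvd_of_pow_eq_one
      have h4 : ((2 ^ 9 - 1 : ℕ) : ZMod q) = 0 := by
        rw [ZMod.natCast_eq_zero_iff]
        have e' : 2 ^ 9 - 1 = 7 * 73 := by norm_num
        rw [e']; exact h2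
      rw [Nat.cast_sub Nat.one_le_two_pow] at h4
      push_cast at h4
      linear_combination h4
    rw [h] at h3
    norm_num at h3
  · exact (Nat.prime_dvd_prime_iff_eq hq (by norm_num)).1 h2

/-- the exceptional primes of the theorem -/
theorem exc_final (n q : ℕ) (hno : Odd n) (hq : q.Prime)
    (h : ExcE n (orderOf (2 : ZMod q)) ∨ (¬ RegA n ∧ ¬ RegB n ∧ orderOf (2 : ZMod q) = 3 ^ (J n + 1))) :
    (∃ l : ℕ, l.Prime ∧ 5 ≤ l ∧ l ^ 2 ∣ orderOf (2 : ZMod q) ∧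
      ((n % 4 = 1 ∧ l % 3 = 2 ∧ (l : ℤ) ∣ 3 * n - 2) ∨ (n % 4 = 3 ∧ l % 4 = 3 ∧ (l : ℤ) ∣ 9 * n - 2))) ∨
    ((¬ ∃ k j : ℕ, n = 9 ^ k * (3 * j + 1) + 2) ∧ (¬ ∃ k j : ℕ, n = 4 ^ (k + 1) * (8 * j + 1) + 9) ∧
      ((n % 3 = 1 ∧ q = 7) ∨ (n % 3 = 2 ∧ n % 9 ≠ 2 ∧ q = 73) ∨ (n % 9 = 2 ∧ q = 262657))) := by
  rcases h with ⟨l, hl, hl5, hlo, hb⟩ | ⟨h1, h3, h2⟩
  · exact Or.inl ⟨l, hl, hl5, hlo, bad_imp n l hl hl5 hb⟩
  · refine Or.inr ⟨h1, h3, ?_⟩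
    have h30 := not_three hno h1
    unfold J at h2
    split_ifs at h2 with g1 g2
    · exact Or.inl ⟨g1, ord3 q hq (by simpa using h2)⟩
    · exact Or.inr (Or.inr ⟨g2, ord27 q hq (by simpa using h2)⟩)
    · exact Or.inr (Or.inl ⟨by omega, g2, ord9 q hq (by simpa using h2)⟩)

end Pool.Agent.N719.SP
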