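import Pool.Agent.N719.SP.Main
import Pool.Agent.N719.SP.ClsU

/-!
# The sieve with the Aurifeuillian pattern
-/

set_option autoImplicit false
open Finset

namespace Pool.Agent.N719.SP
open Pool.Agent.W65.FS Pool.Agent.TH696.FA Pool.Agent.R154.FT Pool.Agent.R154.FV Pool.Agent.Y440.LC

/-- the exceptional numbers -/
def ExcU (n o : ℕ) : Prop := ∃ l : ℕ, l.Prime ∧ 5 ≤ l ∧ l ^ 2 ∣ o ∧ BadU n l

/-- the two special primes -/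
def ExcT (n q : ℕ) : Prop := (n % 4 = 1 ∧ (7 : ℤ) ∣ 9 * n - 8 ∧ q = 113) ∨ (n % 4 = 3 ∧ (5 : ℤ) ∣ 3 * n - 8 ∧ q = 41)

theorem baseU (n K : ℕ) (hno : Odd n) (hK : 0 < K) (h2K : 2 ∣ K)
    (hsq : ∀ l : ℕ, l.Prime → 5 ≤ l → l ^ 2 ∣ K → ¬ BadU n l) :
    ∃ (D : ℕ) (u : Fin 4 → ℤ), BaseE n K D (ExcT n) u := by
  obtain ⟨v, L, hL, hKL⟩ := Nat.exists_eq_two_pow_mul_odd hK.ne'
  have hL0 : L ≠ 0 := by rintro rfl; simp at hL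
  obtain ⟨w, M, hM3, hLM⟩ := Nat.exists_eq_pow_mul_and_not_dvd hL0 3 (by norm_num)
  have hM0 : 0 < M := by
    rcases Nat.eq_zero_or_pos M with h0 | h0
    · rw [h0] at hM3; simp at hM3
    · exact h0
  have hM2 : ¬ 2 ∣ M := by
    intro h2
    rw [hLM] at hL
    have h2' : 2 ∣ 3 ^ w * M := h2.mul_left _
    exact (Nat.not_even_iff_odd.2 hL) (even_iff_two_dvd.2 h2')
  have hM6 : Nat.Coprime 6 M := by
    have e : (6 : ℕ) = 2 * 3 := by norm_num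
    rw [e]
    exact Nat.Coprime.mul_left ((Nat.Prime.coprime_iff_not_dvd Nat.prime_two).2 hM2)
      ((Nat.Prime.coprime_iff_not_dvd Nat.prime_three).2 hM3)
  have hKM : K = 2 ^ v * 3 ^ w * M := by rw [hKL, hLM]; ring
  have hsqM : ∀ l : ℕ, l.Prime → l ^ 2 ∣ M → ¬ BadU n l := by
    intro l hl hlM
    have hlM' : l ∣ M := (dvd_pow_self l two_ne_zero).trans hlM
    apply hsq l hl
    · by_contra hlt
      push Not at hlt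
      have h2 := hl.two_le
      have h5 : l = 2 ∨ l = 3 ∨ l = 4 := by omega
      rcases h5 with rfl | rfl | rfl
      · exact hM2 hlM'
      · exact hM3 hlM'
      · exact absurd hl (by norm_num)
    · rw [hKM]; exact hlM.mul_left _
  have hDK : 2 ^ (v + 2) * 3 ^ (w + 1) * M = 12 * K := by rw [hKM]; ring
  have hD0 : 0 < 2 ^ (v + 2) * 3 ^ (w + 1) * M := by rw [hDK]; omega
  have hD4 : 4 ∣ 2 ^ (v + 2) * 3 ^ (w + 1) * M := by rw [hDK]; exact Dvd.dvd.mul_right (by norm_num) _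
  have hKD : K ∣ 2 ^ (v + 2) * 3 ^ (w + 1) * M := by rw [hDK]; exact dvd_mul_left _ _
  have hv : 1 ≤ v := by
    by_contra hv
    have hv0 : v = 0 := by omega
    rw [hv0, pow_zero, one_mul] at hKL
    rw [← hKL] at hL
    exact (Nat.not_even_iff_odd.2 hL) (even_iff_two_dvd.2 h2K)
  obtain ⟨u, t, hu, hP⟩ := localU n v w M hno hM0 hM6 hsqM
  refine ⟨2 ^ (v + 2) * 3 ^ (w + 1) * M, u, hD0, hD4, hKD, hDK, hu, hP.e3, ?_⟩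
  intro x y z hx hy hz q hq hqN hqK
  rw [hKM] at hqK
  exact coprimeU n v w M hv u t hP x y z hx hy hz q hq hqN hqK

lemma two_dvd_KD (n K : ℕ) [DecidablePred (fun b => ¬ ExcU n b)] (hK : 0 < K) (h2 : 2 ∣ K) :
    2 ∣ KD (fun b => ¬ ExcU n b) K := by
  unfold KD
  refine Finset.dvd_lcm (f := id) (Finset.mem_filter.2 ⟨Nat.mem_divisors.2 ⟨h2, hK.ne'⟩, ?_⟩)
  rintro ⟨l, hl, hl5, hlo, -⟩
  have h3 := Nat.le_of_dvd (by norm_num) hlo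
  nlinarith

lemma two_dvd_lcmUpto (Y : ℕ) (hY : 2 ≤ Y) : 2 ∣ Nat.lcmUpto Y :=
  (Nat.prime_two.dvd_primorial_iff.2 hY).trans (Nat.primorial_dvd_lcmUpto Y)

lemma hsqU (n : ℕ) (B : ℕ → Prop) [DecidablePred B] (K : ℕ) (hB : ∀ b, B b → ¬ ExcU n b) :
    ∀ l : ℕ, l.Prime → 5 ≤ l → l ^ 2 ∣ KD B K → ¬ BadU n l := by
  intro l hl hl5 hlK hd
  refine prime_pow_dvd_lcm l 2 hl ((Nat.divisors K).filter B) ?_ ?_ (by norm_num) hlK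
  · intro b hb
    exact (Nat.pos_of_mem_divisors (Finset.mem_filter.1 hb).1).ne'
  · intro b hb hlb
    exact hB b (Finset.mem_filter.1 hb).2 ⟨l, hl, hl5, hlb, hd⟩

/-- all odd `n` -/
theorem mainAU (ε : ℝ) (hε : 0 < ε) : ∃ c : ℝ, 0 < c ∧ ∃ n0 : ℕ, ∀ n : ℕ, n0 ≤ n → Odd n →
    ∃ S : Finset (ℕ × ℕ × ℕ × ℕ), (n : ℝ) ^ (1 - ε) ≤ (S.card : ℝ) ∧
      ∀ x y z w : ℕ, (x, y, z, w) ∈ S → n = x ^ 2 + y ^ 2 + z ^ 2 + 4 * w ^ 2 ∧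
        ∀ q : ℕ, q.Prime → q ∣ 2 ^ x + 2 ^ y + 2 ^ z + 1 →
          (q : ℝ) ≤ c * (Real.log n * Real.log (Real.log n) / Real.log (Real.log (Real.log n))) →
          q ≠ 2 ∧ (ExcU n (orderOf (2 : ZMod q)) ∨ ExcT n q) := by
  classical
  obtain ⟨δ, hδ, n1, horth⟩ := orth_count ε hε
  obtain ⟨n2, hn2⟩ := large_rp 24 (δ / 2) (by positivity)
  obtain ⟨c, hc, n4, hm⟩ := modulus (δ / 2) (by positivity)
  refine ⟨c, hc, n1 + n2 + n4 + 1, fun n hn hno => ?_⟩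
  have hn0 : (0 : ℝ) < n := by exact_mod_cast hno.pos
  obtain ⟨K, hK0, hKn0, hKd⟩ := hm n (by omega)
  have h2K0 : 0 < 2 * K := by omega
  obtain ⟨D, u, hb⟩ := baseU n (KD (fun b => ¬ ExcU n b) (2 * K)) hno (KD_pos _ _ h2K0)
    (two_dvd_KD n _ h2K0 (dvd_mul_right _ _)) (hsqU n _ (2 * K) (fun b hb => hb))
  have hKle : KD (fun b => ¬ ExcU n b) (2 * K) ≤ 2 * K := Nat.le_of_dvd h2K0 (KD_dvd _ (2 * K))
  have hDn : (D : ℝ) ≤ (n : ℝ) ^ δ := by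
    have h1 : (D : ℝ) = 12 * ((KD (fun b => ¬ ExcU n b) (2 * K) : ℕ) : ℝ) := by
      rw [hb.D12]; push_cast; ring
    have h2 : ((KD (fun b => ¬ ExcU n b) (2 * K) : ℕ) : ℝ) ≤ 2 * (K : ℝ) := by exact_mod_cast hKle
    have h3 := hn2 n (by omega)
    rw [h1]
    calc 12 * ((KD (fun b => ¬ ExcU n b) (2 * K) : ℕ) : ℝ) ≤ 24 * (K : ℝ) := by linarith
      _ ≤ (n : ℝ) ^ (δ / 2) * (n : ℝ) ^ (δ / 2) := by
          apply mul_le_mul h3 hKn0 (Nat.cast_nonneg _) (by positivity)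
      _ = (n : ℝ) ^ δ := by rw [← Real.rpow_add hn0]; congr 1; ring
  have hcount := horth n D (by omega) hno hb.D0 hb.D4 hDn u hb.good
  have hD2 : (2 : ℤ) ∣ (D : ℤ) := by
    have h4 : ((4 : ℕ) : ℤ) ∣ (D : ℤ) := Int.natCast_dvd_natCast.2 hb.D4
    exact dvd_trans (by norm_num) h4
  obtain ⟨T, hT1, hT2⟩ := quads3 n K D 0 0 u u hD2 hb.u3 (orth n D u) (fun W hW => ⟨hW, fun l hl => by
    have := (mem_win 0 0 l).1 hl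
    omega⟩)
  refine ⟨T, by rw [hT1]; exact hcount, ?_⟩
  intro x y z w hxyzw
  obtain ⟨g1, g2, g3, g4, -⟩ := hT2 x y z w hxyzw
  refine ⟨g1, fun q hq hqN hqc => ?_⟩
  have hcop := hb.cop x y z g2 g3 g4 q hq hqN
  have hq2 : q ≠ 2 := by
    intro h
    exact (hcop (by rw [h]; exact dvd_mul_right _ _)).1 h
  refine ⟨hq2, ?_⟩
  by_cases hE : ExcU n (orderOf (2 : ZMod q))
  · exact Or.inl hE
  · exact Or.inr (hcop (dvd_of_order (fun b => ¬ ExcU n b) (2 * K) h2K0 q hq hq2 ((hKd q hq hqc).mul_left 2) hE)).2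

/-- the range `(log n)²` -/
theorem mainBU (ε : ℝ) (hε : 0 < ε) : ∃ c : ℝ, 0 < c ∧ ∃ n0 : ℕ, ∀ n : ℕ, n0 ≤ n → Odd n →
    (∀ l : ℕ, l.Prime → c * Real.log n < l → (l : ℝ) ≤ (Real.log n) ^ 2 → ¬ l ^ 2 ∣ n) →
    ∃ S : Finset (ℕ × ℕ × ℕ × ℕ), (n : ℝ) ^ (1 - ε) ≤ (S.card : ℝ) ∧
      ∀ x y z w : ℕ, (x, y, z, w) ∈ S → n = x ^ 2 + y ^ 2 + z ^ 2 + 4 * w ^ 2 ∧
        ∀ q : ℕ, q.Prime → q ∣ 2 ^ x + 2 ^ y + 2 ^ z + 1 → (q : ℝ) ≤ c * (Real.log n) ^ 2 →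
          q ≠ 2 ∧ (ExcU n (orderOf (2 : ZMod q)) ∨ ExcT n q) := by
  classical
  obtain ⟨κ, hκ0, hκ1, n0, hmain⟩ := numE ε hε
  have hcκ : (κ / 2) ^ 2 / 200000 ≤ κ := by
    rw [div_le_iff₀ (by norm_num)]
    nlinarith
  refine ⟨(κ / 2) ^ 2 / 200000, by positivity, n0 + 1, ?_⟩
  intro n hn hno hsqf
  have hnr : (1 : ℝ) ≤ n := by exact_mod_cast hno.pos
  have hlog0 : 0 ≤ Real.log n := Real.log_nonneg hnr
  obtain ⟨Y, hY⟩ : ∃ Y : ℕ, Y = ⌊κ * Real.log n⌋₊ := ⟨_, rfl⟩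
  obtain ⟨Z, hZ⟩ : ∃ Z : ℕ, Z = Y ^ 2 / 200000 := ⟨_, rfl⟩
  obtain ⟨hY12, hZY, hZlt, hT⟩ := hmain n (by omega) hno Y Z hY hZ
  have hYle : (Y : ℝ) ≤ κ * Real.log n := by
    rw [hY]
    exact Nat.floor_le (by positivity)
  have hYlt : κ * Real.log n < Y + 1 := by
    rw [hY]
    exact Nat.lt_floor_add_one _
  have hY1r : (1 : ℝ) ≤ Y := by exact_mod_cast (by omega : 1 ≤ Y)
  have hYhalf : κ / 2 * Real.log n ≤ Y := by linarith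
  have hM : Mod ((Nat.lcmUpto Y) ^ 3) Y Z := mod_inst Y Z (by omega) hZY
  obtain ⟨Λ, hΛ⟩ : ∃ Λ : ℕ, Λ = (Nat.lcmUpto Y) ^ 3 := ⟨_, rfl⟩
  rw [← hΛ] at hM
  rw [← hΛ] at hT
  have hΛ0 : 0 < Λ := hM.pos
  have hln : ∀ l : ℕ, l.Prime → Y < l → l ≤ Z → ¬ l ^ 2 ∣ n := by
    intro l hl hlY hlZ
    apply hsqf l hl
    · have h1 : ((Y : ℝ) + 1) ≤ l := by exact_mod_cast hlY
      have h2 : (κ / 2) ^ 2 / 200000 * Real.log n ≤ κ * Real.log n := by gcongr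
      linarith
    · have h1 : (l : ℝ) ≤ (Y : ℝ) ^ 2 := by
        have : l ≤ Y ^ 2 := by omega
        exact_mod_cast this
      have h2 : (Y : ℝ) ≤ Real.log n := by
        calc (Y : ℝ) ≤ κ * Real.log n := hYle
          _ ≤ 1 * Real.log n := by gcongr
          _ = Real.log n := one_mul _
      calc (l : ℝ) ≤ (Y : ℝ) ^ 2 := h1
        _ ≤ (Real.log n) ^ 2 := by gcongr
  have hqZ : ∀ q : ℕ, (q : ℝ) ≤ (κ / 2) ^ 2 / 200000 * (Real.log n) ^ 2 → q ≤ Z := by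
    intro q hq
    have h3 : (Y : ℝ) ^ 2 < 200000 * ((Z : ℝ) + 1) := by exact_mod_cast hZlt
    have h4 : (q : ℝ) < ((Z + 1 : ℕ) : ℝ) := by
      calc (q : ℝ) ≤ (κ / 2) ^ 2 / 200000 * (Real.log n) ^ 2 := hq
        _ = (κ / 2 * Real.log n) ^ 2 / 200000 := by ring
        _ ≤ (Y : ℝ) ^ 2 / 200000 := by gcongr
        _ < (Z : ℝ) + 1 := by
            rw [div_lt_iff₀ (by norm_num)]
            linarith
        _ = ((Z + 1 : ℕ) : ℝ) := by push_cast; ring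
    have h5 : q < Z + 1 := by exact_mod_cast h4
    omega
  have hBK : ∀ (B : ℕ → Prop) [DecidablePred B], ∀ d : ℕ, 0 < d → d ≤ Z →
      (∀ p : ℕ, p.Prime → p ∣ d → p ≤ Y) → B d → d ∣ KD B Λ := by
    intro B _ d hd hdZ hp hBd
    unfold KD
    exact Finset.dvd_lcm (f := id) (Finset.mem_filter.2 ⟨Nat.mem_divisors.2 ⟨hM.smooth d hd hdZ hp, hΛ0.ne'⟩, hBd⟩)
  have hexc : ∀ d k, ¬ ExcU n d → k ∣ d → ¬ ExcU n k := by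
    rintro d k h1 h2 ⟨l, hl, hl5, hlk, hln'⟩
    exact h1 ⟨l, hl, hl5, hlk.trans h2, hln'⟩
  have h2Λ : 2 ∣ Λ := by
    rw [hΛ]; exact (two_dvd_lcmUpto Y (by omega)).trans (dvd_pow_self _ (by norm_num))
  obtain ⟨D, u, hb⟩ := baseU n (KD (fun b => ¬ ExcU n b) Λ) hno (KD_pos _ _ hΛ0) (two_dvd_KD n _ hΛ0 h2Λ)
    (hsqU n _ Λ (fun b hb => hb))
  obtain ⟨T, hT1, hT2⟩ := hT _ D _ u hb (KD_dvd _ _) hln (fun b => ¬ ExcU n b) hexc (hBK _)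
  refine ⟨T, hT1, ?_⟩
  intro x y z w hxyzw
  obtain ⟨g1, g2⟩ := hT2 x y z w hxyzw
  refine ⟨g1, fun q hq hqN hqc => ?_⟩
  obtain ⟨k1, k2⟩ := g2 q hq hqN (hqZ q hqc)
  refine ⟨k1, ?_⟩
  by_cases hE : ExcU n (orderOf (2 : ZMod q))
  · exact Or.inl hE
  · exact Or.inr (k2 hE)


lemma badU_imp (n l : ℕ) (hl : l.Prime) (hl5 : 5 ≤ l) (h : BadU n l) :
    (n % 4 = 1 ∧ l % 4 = 3 ∧ (l : ℤ) ∣ 9 * n - 8) ∨ (n % 4 = 3 ∧ l % 3 = 2 ∧ (l : ℤ) ∣ 3 * n - 8) := by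
  have : Fact l.Prime := ⟨hl⟩
  rcases h with ⟨h1, h2, h3⟩ | ⟨h1, h2, h3⟩
  · refine Or.inl ⟨h1, ?_, h2⟩
    by_contra h4
    exact h3 (sq_neg_nine l h4)
  · refine Or.inr ⟨h1, ?_, h2⟩
    by_contra h4
    by_cases h5 : l % 3 = 1
    · exact h3 (sq_neg_three l h5)
    · have h6 : 3 ∣ l := by omega
      have := (Nat.prime_dvd_prime_iff_eq Nat.prime_three hl).1 h6
      omega

/-- the exceptional primes of the theorem -/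
theorem exc_finalU (n q : ℕ) (h : ExcU n (orderOf (2 : ZMod q)) ∨ ExcT n q) :
    (∃ l : ℕ, l.Prime ∧ 5 ≤ l ∧ l ^ 2 ∣ orderOf (2 : ZMod q) ∧
      ((n % 4 = 1 ∧ l % 4 = 3 ∧ (l : ℤ) ∣ 9 * n - 8) ∨ (n % 4 = 3 ∧ l % 3 = 2 ∧ (l : ℤ) ∣ 3 * n - 8))) ∨
    ((n % 4 = 1 ∧ n % 7 = 4 ∧ q = 113) ∨ (n % 4 = 3 ∧ n % 5 = 1 ∧ q = 41)) := by
  rcases h with ⟨l, hl, hl5, hlo, hb⟩ | ⟨h1, h2, h3⟩ | ⟨h1, h2, h3⟩
  · exact Or.inl ⟨l, hl, hl5, hlo, badU_imp n l hl hl5 hb⟩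
  · exact Or.inr (Or.inl ⟨h1, by omega, h3⟩)
  · exact Or.inr (Or.inr ⟨h1, by omega, h3⟩)

end Pool.Agent.N719.SP
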