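import Pool.Agent.R154.FV.MainV
import Pool.Agent.N719.SP.Cls

/-!
# The sieve with exceptional primes

The proofs follow `Pool.Agent.R154.FV` (`no_small3`, `coreV`, `numV`, `mainV`), with the new residue classes.
-/

set_option autoImplicit false
open Finset

namespace Pool.Agent.N719.SP
open Pool.Agent.W65.FS Pool.Agent.TH696.FA Pool.Agent.R154.FT Pool.Agent.R154.FV

/-- the classes of the base modulus: the prime factors of `2 (2^K - 1)` and of the number in question are odd and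
exceptional -/
structure BaseE (n K D : ℕ) (E : ℕ → Prop) (u : Fin 4 → ℤ) : Prop where
  D0 : 0 < D
  D4 : 4 ∣ D
  KD : K ∣ D
  D12 : D = 12 * K
  good : GoodG n D u
  u3 : (2 : ℤ) ∣ u 3
  cop : ∀ x y z : ℕ, (D : ℤ) ∣ (x : ℤ) - u 0 → (D : ℤ) ∣ (y : ℤ) - u 1 → (D : ℤ) ∣ (z : ℤ) - u 2 →
    ∀ q : ℕ, q.Prime → q ∣ 2 ^ x + 2 ^ y + 2 ^ z + 1 → q ∣ 2 * (2 ^ K - 1) → q ≠ 2 ∧ E q

/-- triples of exponents which are nowhere bad -/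
theorem no_smallE {n K D Y Z : ℕ} {E : ℕ → Prop} {u : Fin 4 → ℤ} (hb : BaseE n K D E u) (B : ℕ → Prop)
    (hB : ∀ d k, B d → k ∣ d → B k)
    (hK : ∀ d : ℕ, 0 < d → d ≤ Z → (∀ p : ℕ, p.Prime → p ∣ d → p ≤ Y) → B d → d ∣ K)
    (hYZ : Z < Y ^ 2) (x y z : ℕ) (hx : (D : ℤ) ∣ (x : ℤ) - u 0) (hy : (D : ℤ) ∣ (y : ℤ) - u 1)
    (hz : (D : ℤ) ∣ (z : ℤ) - u 2)
    (hl : ∀ l : Nat.Primes, Y < (l : ℕ) → (l : ℕ) ≤ Z →
      (((x : ZMod (l : ℕ)), (y : ZMod (l : ℕ)), (z : ZMod (l : ℕ))) : ZMod (l : ℕ) × ZMod (l : ℕ) × ZMod (l : ℕ)) ∉ bad3 K Z u (l : ℕ))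
    (q : ℕ) (hq : q.Prime) (hqN : q ∣ 2 ^ x + 2 ^ y + 2 ^ z + 1) (hqZ : q ≤ Z) :
    q ≠ 2 ∧ (B (orderOf (2 : ZMod q)) → E q) := by
  haveI : Fact q.Prime := ⟨hq⟩
  have hcop := hb.cop x y z hx hy hz q hq hqN
  have hq2 : q ≠ 2 := by
    intro h
    exact (hcop (by rw [h]; exact dvd_mul_right _ _)).1 h
  refine ⟨hq2, fun hBo => ?_⟩
  by_contra hE
  have hcq : ¬ q ∣ 2 * (2 ^ K - 1) := fun h => hE (hcop h).2
  have h20 := two_ne (q := q) hq2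
  have hdvd : orderOf (2 : ZMod q) ∣ q - 1 := orderOf_dvd_of_pow_eq_one (ZMod.pow_card_sub_one_eq_one h20)
  have hq1 : 0 < q - 1 := by have := hq.two_le; omega
  set d := orderOf (2 : ZMod q) with hd
  have hd0 : 0 < d := Nat.pos_of_dvd_of_pos hdvd hq1
  have hdZ : d < Z := by
    have := Nat.le_of_dvd hq1 hdvd
    omega
  by_cases hsm : ∀ p : ℕ, p.Prime → p ∣ d → p ≤ Y
  · have h1 : d ∣ K := hK d hd0 hdZ.le hsm hBo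
    apply hcq
    apply Dvd.dvd.mul_left
    have h2 : (2 : ZMod q) ^ K = 1 := orderOf_dvd_iff_pow_eq_one.1 h1
    rw [← ZMod.natCast_eq_zero_iff, Nat.cast_sub Nat.one_le_two_pow]
    push_cast
    rw [h2]; ring
  · push Not at hsm
    obtain ⟨l, hlp, hld, hlY⟩ := hsm
    obtain ⟨k, hk⟩ := hld
    have hk0 : 0 < k := by
      rcases Nat.eq_zero_or_pos k with h0 | h0
      · rw [h0, mul_zero] at hk
        omega
      · exact h0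
    have hkY : k < Y := by
      by_contra hcon
      push Not at hcon
      have h2 : Y * Y ≤ l * k := Nat.mul_le_mul hlY.le hcon
      rw [pow_two] at hYZ
      omega
    have hlZ : l ≤ Z := by
      have : l ≤ l * k := Nat.le_mul_of_pos_right _ hk0
      omega
    have hkZ : k ≤ Z := by
      have : k ≤ l * k := Nat.le_mul_of_pos_left k hlp.pos
      omega
    have hkK : k ∣ K := hK k hk0 hkZ (fun p _ hp => (Nat.le_of_dvd hk0 hp).trans hkY.le)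
      (hB d k hBo (by rw [hk]; exact dvd_mul_left _ _))
    haveI : Fact l.Prime := ⟨hlp⟩
    apply hl ⟨l, hlp⟩ hlY hlZ
    have hKD : (K : ℤ) ∣ (D : ℤ) := Int.natCast_dvd_natCast.2 hb.KD
    refine (mem_bad3 K Z u l _).2 ⟨q, x, y, z, hq, hq2, hqZ, ?_, ?_, hKD.trans hx, hKD.trans hy, hKD.trans hz, rfl, rfl, rfl, hqN⟩
    · rw [← hd, hk]
      exact dvd_mul_right _ _
    · rw [← hd, hk, mul_comm l k]
      exact Nat.mul_dvd_mul_right hkK l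

theorem coreE : ∃ C0 : ℝ, 0 < C0 ∧ ∃ Y0 : ℕ, ∀ (n K D Y Z : ℕ) (E : ℕ → Prop) (u : Fin 4 → ℤ), BaseE n K D E u → Odd n →
    Y0 ≤ Y → 12 ≤ Y → 1 ≤ Z → 200 * Z ≤ Y ^ 2 → Z < Y ^ 2 →
    (∀ l : ℕ, l.Prime → Y < l → ¬ l ∣ K) → (∀ l : ℕ, l.Prime → Y < l → l ≤ Z → ¬ l ^ 2 ∣ n) →
    ∀ B : ℕ → Prop, (∀ d k, B d → k ∣ d → B k) →
    (∀ d : ℕ, 0 < d → d ≤ Z → (∀ p : ℕ, p.Prime → p ∣ d → p ≤ Y) → B d → d ∣ K) →
    ∀ E0 : ℝ, 100 * (Z : ℝ) * ∑ l ∈ win Y Z, (((l : ℕ) : ℝ) ^ 2)⁻¹ ≤ E0 →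
    ∀ r : ℕ, Odd r → 5 * E0 + 1 ≤ ((r + 1 : ℕ) : ℝ) →
    ∃ (D' : ℕ) (u' : Fin 4 → ℤ), 0 < D' ∧ 4 ∣ D' ∧ D' ≤ (12 * K * (10000 * (Z + 1) ^ 5)) ^ 71 ∧ GoodG n D' u' ∧
      ∃ T : Finset (ℕ × ℕ × ℕ × ℕ),
      ((repsc n D' u').card : ℝ) * (1 / 2 * Real.exp (-(2 * E0))) -
        ((((r + 1) * (Z + 1) ^ r : ℕ) : ℝ) * ((50 * (Z : ℝ) ^ 2 + 1) ^ r *
          (C0 * ((D' * Z ^ r : ℕ) : ℝ) ^ 11 * (n : ℝ) ^ (19 / 20 : ℝ)))) ≤ 25 * (T.card : ℝ) ∧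
      ∀ x y z w : ℕ, (x, y, z, w) ∈ T → n = x ^ 2 + y ^ 2 + z ^ 2 + 4 * w ^ 2 ∧
        ∀ q : ℕ, q.Prime → q ∣ 2 ^ x + 2 ^ y + 2 ^ z + 1 → q ≤ Z →
          q ≠ 2 ∧ (B (orderOf (2 : ZMod q)) → E q) := by
  classical
  obtain ⟨C0, hC0, hsv⟩ := sieveG
  obtain ⟨Y0, hsel⟩ := sel2
  refine ⟨C0, hC0, Y0, ?_⟩
  intro n K D Y Z E u hb hno hY0 hY hZ hYZ hZY hlK hln B hBc hBK E0 hE0 r hr hrE
  have hDl : ∀ l : ℕ, l.Prime → Y < l → ¬ l ∣ D := by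
    intro l hl hlY h2
    rw [hb.D12] at h2
    rcases (Nat.Prime.dvd_mul hl).1 h2 with h3 | h3
    · have := Nat.le_of_dvd (by norm_num) h3
      have h12 : l ∣ 2 * 2 * 3 := by exact h3
      rcases (Nat.Prime.dvd_mul hl).1 h12 with h4 | h4
      · rcases (Nat.Prime.dvd_mul hl).1 h4 with h5 | h5
        · have := Nat.le_of_dvd (by norm_num) h5
          omega
        · have := Nat.le_of_dvd (by norm_num) h5
          omega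
      · have := Nat.le_of_dvd (by norm_num) h4
        omega
    · exact hlK _ hl hlY h3
  have hJ1 : 1 ≤ 10000 * (Z + 1) ^ 5 := by
    have : 1 ≤ (Z + 1) ^ 5 := Nat.one_le_pow _ _ (by omega)
    omega
  obtain ⟨D', P, Q, N, P', Q', N', r1, r2, c12, hD'e, hD'0, h4D', hD'J, hD'l⟩ :=
    setup D (10000 * (Z + 1) ^ 5) Y Z hb.D0 hb.D4 hJ1 (hsel Y Z hY0 hZY.le) hDl
  obtain ⟨u', hu', hdiv, hG⟩ := engine n D hb.D4 u hb.good P Q N P' Q' N' r1 r2 c12 D' hD'e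
  have hwin : ∀ l ∈ win Y Z, ¬ (l : ℕ) ∣ D' := by
    intro l hl hd
    have hl' := (mem_win Y Z l).1 hl
    exact hD'l l l.2 hl'.1 hl'.2 hd
  have hND : N ∣ (D' : ℤ) := by rw [hD'e]; exact ⟨D * N * N' ^ 2, by ring⟩
  have hND' : N' ∣ (D' : ℤ) := by rw [hD'e]; exact ⟨D * N ^ 2 * N', by ring⟩
  have hlN : ∀ l ∈ win Y Z, ¬ (((l : ℕ) : ℤ) ∣ N) := by
    intro l hl' hd
    exact hwin l hl' (Int.natCast_dvd_natCast.1 (hd.trans hND))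
  have hlN' : ∀ l ∈ win Y Z, ¬ (((l : ℕ) : ℤ) ∣ N') := by
    intro l hl' hd
    exact hwin l hl' (Int.natCast_dvd_natCast.1 (hd.trans hND'))
  obtain ⟨S, hS, hScard, hSG⟩ := hsv n Y Z hno.pos D' hD'0 h4D' u' hu'
    (fun l => BB3 n K Z u P Q N P' Q' N' (l : ℕ))
    (fun l _ x hx => ((mem_BB3 _ _ _ _ _ _ _ _ _ _ _ _).1 hx).1)
    (fun l hl => card_BB3 n K Z u P Q N P' Q' N' r1.sq r2.sq (l : ℕ)
      (hlK _ l.2 ((mem_win Y Z l).1 hl).1) (hlN l hl) (hlN' l hl))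
    hwin hY hZ hYZ E0 hE0 r hr hrE
  have hSG' : ∀ X ∈ S, ∀ k, ∀ l ∈ win Y Z,
      ((((rotv P Q N P' Q' N' k X 0 : ℤ) : ZMod (l : ℕ)), ((rotv P Q N P' Q' N' k X 1 : ℤ) : ZMod (l : ℕ)),
      ((rotv P Q N P' Q' N' k X 2 : ℤ) : ZMod (l : ℕ))) : ZMod (l : ℕ) × ZMod (l : ℕ) × ZMod (l : ℕ)) ∉ bad3 K Z u (l : ℕ) := by
    intro X hX k l hl
    have hl' := (mem_win Y Z l).1 hl
    exact good_rot3 n K Z u P Q N P' Q' N' X ((mem_repsc _ _ _ _).1 (hS hX)).1 (hdiv X (hS hX)) (l : ℕ)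
      (hln l l.2 hl'.1 hl'.2) r1.hN.ne' r2.hN.ne' (hSG X hX l hl) k
  have hcard := hG (fun W => ∀ l ∈ win Y Z, ((((W 0 : ℤ) : ZMod (l : ℕ)), ((W 1 : ℤ) : ZMod (l : ℕ)), ((W 2 : ℤ) : ZMod (l : ℕ))) :
    ZMod (l : ℕ) × ZMod (l : ℕ) × ZMod (l : ℕ)) ∉ bad3 K Z u (l : ℕ)) S hS (fun X hX k => hSG' X hX k)
  have hD2 : (2 : ℤ) ∣ (D : ℤ) := by
    have h4 : ((4 : ℕ) : ℤ) ∣ (D : ℤ) := Int.natCast_dvd_natCast.2 hb.D4
    exact dvd_trans (by norm_num) h4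
  obtain ⟨T, hT1, hT2⟩ := quads3 n K D Z Y u u hD2 hb.u3
    ((orth n D u).filter (fun W => ∀ l ∈ win Y Z, ((((W 0 : ℤ) : ZMod (l : ℕ)), ((W 1 : ℤ) : ZMod (l : ℕ)), ((W 2 : ℤ) : ZMod (l : ℕ))) :
    ZMod (l : ℕ) × ZMod (l : ℕ) × ZMod (l : ℕ)) ∉ bad3 K Z u (l : ℕ)))
    (fun W hW => by rw [Finset.mem_filter] at hW; exact hW)
  refine ⟨D', u', hD'0, h4D', ?_, hu', T, ?_, ?_⟩
  · rw [← hb.D12]
    exact hD'J
  · rw [hT1]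
    refine hScard.trans ?_
    exact_mod_cast hcard
  · intro x y z w hxyzw
    obtain ⟨g1, g2, g3, g4, g5⟩ := hT2 x y z w hxyzw
    refine ⟨g1, fun q hq hqN hqZ => ?_⟩
    exact no_smallE hb B hBc hBK hZY x y z g2 g3 g4 g5 q hq hqN hqZ

theorem numE (ε : ℝ) (hε : 0 < ε) : ∃ κ : ℝ, 0 < κ ∧ κ ≤ 1 ∧ ∃ n0 : ℕ, ∀ n : ℕ, n0 ≤ n → Odd n →
    ∀ Y Z : ℕ, Y = ⌊κ * Real.log n⌋₊ → Z = Y ^ 2 / 200000 →
    12 ≤ Y ∧ Z < Y ^ 2 ∧ Y ^ 2 < 200000 * (Z + 1) ∧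
    ∀ (K D : ℕ) (E : ℕ → Prop) (u : Fin 4 → ℤ), BaseE n K D E u → K ∣ (Nat.lcmUpto Y) ^ 3 →
      (∀ l : ℕ, l.Prime → Y < l → l ≤ Z → ¬ l ^ 2 ∣ n) →
      ∀ B : ℕ → Prop, (∀ d k, B d → k ∣ d → B k) →
      (∀ d : ℕ, 0 < d → d ≤ Z → (∀ p : ℕ, p.Prime → p ∣ d → p ≤ Y) → B d → d ∣ K) →
      ∃ T : Finset (ℕ × ℕ × ℕ × ℕ), (n : ℝ) ^ (1 - ε) ≤ (T.card : ℝ) ∧
      ∀ x y z w : ℕ, (x, y, z, w) ∈ T → n = x ^ 2 + y ^ 2 + z ^ 2 + 4 * w ^ 2 ∧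
        ∀ q : ℕ, q.Prime → q ∣ 2 ^ x + 2 ^ y + 2 ^ z + 1 → q ≤ Z →
          q ≠ 2 ∧ (B (orderOf (2 : ZMod q)) → E q) := by
  obtain ⟨C0, hC0, Y0, hcore⟩ := coreE
  set e : ℝ := min ε (1 / 100) with he
  have he0 : 0 < e := lt_min hε (by norm_num)
  have he1 : e ≤ 1 / 100 := min_le_right _ _
  obtain ⟨c1, C1, hc1, hC1, hcl⟩ := class_lower (e / 4) (by positivity)
  set t : ℝ := e / 100 with ht
  have ht0 : 0 < t := by positivity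
  obtain ⟨n1, hn1⟩ := fin_num ε c1 C1 C0 e t hc1 hC0 he0 (min_le_left _ _) (min_le_right _ _) ht
  obtain ⟨Y1, hY1⟩ := facts3
  set κ : ℝ := t / 1420 with hκ
  have hκ0 : 0 < κ := by positivity
  have hκ1 : κ ≤ 1 := by
    rw [hκ, ht, div_le_one (by norm_num)]
    linarith
  obtain ⟨n2, hn2⟩ := large_log κ hκ0 ((Y0 + Y1 + 2 : ℕ) : ℝ)
  refine ⟨κ, hκ0, hκ1, n1 + n2 + 1, ?_⟩
  intro n hn hno Y Z hY hZ
  have hnr : (1 : ℝ) ≤ n := by exact_mod_cast hno.pos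
  have hn0 : (0 : ℝ) < n := by linarith
  have hlog0 : 0 ≤ Real.log n := Real.log_nonneg hnr
  have hYM : Y0 + Y1 + 2 ≤ Y := by
    rw [hY]
    exact Nat.le_floor (hn2 n (by omega))
  have hYle : (Y : ℝ) ≤ κ * Real.log n := by
    rw [hY]
    exact Nat.floor_le (by positivity)
  obtain ⟨hY12, hfacts⟩ := hY1 Y (by omega)
  obtain ⟨hZ1, hZ200, hZlt, hZexp, E0, r, hE0, hE1, hr, hrE, hV⟩ := hfacts Z hZ
  have hM : Mod ((Nat.lcmUpto Y) ^ 3) Y Z := mod_inst Y Z (by omega) (by omega)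
  refine ⟨hY12, by omega, hZlt, ?_⟩
  intro K D E u hb hKl hln B hBc hBK
  have hr1 : 1 ≤ r := hr.pos
  have hY12r : (12 : ℝ) ≤ Y := by exact_mod_cast hY12
  have hlK : ∀ l : ℕ, l.Prime → Y < l → ¬ l ∣ K := fun l hl hlY hd => hM.nd l hl hlY (hd.trans hKl)
  obtain ⟨D', u', hD'0, h4, hD'le, hu', T, hT1, hT2⟩ :=
    hcore n K D Y Z E u hb hno (by omega) hY12 hZ1 hZ200 (by omega) hlK hln B hBc hBK E0 hE1 r hr hrE
  have hexp : Real.exp (1420 * Y) ≤ (n : ℝ) ^ t := by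
    rw [Real.rpow_def_of_pos hn0]
    apply Real.exp_le_exp.2
    have h1 : 1420 * (κ * Real.log n) = Real.log n * t := by
      rw [hκ]
      ring
    linarith
  have hK3 : (K : ℝ) ≤ Real.exp (18 * Y) := by
    have h1 : K ≤ (Nat.lcmUpto Y) ^ 3 := Nat.le_of_dvd hM.pos hKl
    have h2 : (K : ℝ) ≤ ((((Nat.lcmUpto Y) ^ 3 : ℕ)) : ℝ) := by exact_mod_cast h1
    exact h2.trans (lcm_exp Y)
  have hexp3 : (3 : ℝ) ≤ Real.exp Y := by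
    have := Real.add_one_le_exp (Y : ℝ)
    linarith
  have hD'n : (D' : ℝ) ≤ (n : ℝ) ^ t := by
    refine le_trans ?_ hexp
    have h1 : (D' : ℝ) ≤ ((12 * K * (10000 * (Z + 1) ^ 5) : ℕ) : ℝ) ^ 71 := by exact_mod_cast hD'le
    have h2 : ((12 * K * (10000 * (Z + 1) ^ 5) : ℕ) : ℝ) ≤ Real.exp (20 * Y) := by
      have e1 : ((12 * K * (10000 * (Z + 1) ^ 5) : ℕ) : ℝ) =
        (K : ℝ) * (3 * (40000 * ((Z : ℝ) + 1) ^ 5)) := by push_cast; ring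
      rw [e1]
      calc (K : ℝ) * (3 * (40000 * ((Z : ℝ) + 1) ^ 5)) ≤ Real.exp (18 * Y) * (Real.exp Y * Real.exp Y) := by
            gcongr
        _ = Real.exp (20 * Y) := by rw [← Real.exp_add, ← Real.exp_add]; congr 1; ring
    calc (D' : ℝ) ≤ ((12 * K * (10000 * (Z + 1) ^ 5) : ℕ) : ℝ) ^ 71 := h1
      _ ≤ (Real.exp (20 * Y)) ^ 71 := by gcongr
      _ = Real.exp (1420 * Y) := by
          rw [← Real.exp_nat_mul]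
          congr 1
          push_cast
          ring
  have hVn : ((Y : ℝ) + 1) ^ (30 * r) ≤ (n : ℝ) ^ t := by
    refine hV.trans (le_trans ?_ hexp)
    apply Real.exp_le_exp.2
    linarith
  have hV1 : 1 ≤ ((Y : ℝ) + 1) ^ (30 * r) := one_le_pow₀ (by linarith)
  have hD'1 : (1 : ℝ) ≤ D' := by exact_mod_cast hD'0
  have hlow := hcl n D' hno hD'0 h4 u' hu'
  have hup : ((repsc n D' u').card : ℝ) * (1 / ((Y : ℝ) + 1) ^ (30 * r)) -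
      ((Y : ℝ) + 1) ^ (30 * r) * (C0 * (D' : ℝ) ^ 11 * (n : ℝ) ^ (19 / 20 : ℝ)) ≤ 25 * (T.card : ℝ) := by
    have h1 := V_main3 Y r E0 hY12 hr1 hrE
    have h2 := V_err Y Z r D' ((n : ℝ) ^ (19 / 20 : ℝ)) C0 hC0 (by positivity) hY12 hZ200
    have h3 : ((repsc n D' u').card : ℝ) * (1 / ((Y : ℝ) + 1) ^ (30 * r)) ≤
        ((repsc n D' u').card : ℝ) * (1 / 2 * Real.exp (-(2 * E0))) := by gcongr
    linarith
  exact ⟨T, hn1 n (by omega) _ _ _ _ (Nat.cast_nonneg _) hV1 hVn hD'1 hD'n hlow hup, hT2⟩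


end Pool.Agent.N719.SP
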